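import Pool.Agent.E8helper56.TY.Asm5
import Pool.Agent.E8helper26.TX.PRE

/-!
# One power decides in every characteristic: definitions and statements of the pieces

There is no hermitian form for which the algebraic classes are closed under adjoints. Instead the
annihilator of the Tate tensors is a reductive Lie algebra; a sequence of its conjugates converges to a
Lie algebra which is closed under adjoints.
-/

set_option autoImplicit false

namespace Pool.Agent.E8helper1.TW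

open Matrix Module Filter Topology
open Pool.Agent.E8helper1.TX Pool.Agent.E8helper56.TX Pool.Agent.E8helper56.TY

variable {n : Type} [Fintype n] [DecidableEq n]

/-- The operators of degree `m` which commute with the derivations given by `L`. -/
def CL (L : Set (Matrix n n ℂ)) (m : ℕ) : Submodule ℂ (Op n m) where
  carrier := {A | ∀ x ∈ L, A * dpow x m = dpow x m * A}
  zero_mem' := fun x _ => by rw [zero_mul, mul_zero]
  add_mem' := fun {A B} hA hB x hx => by rw [add_mul, mul_add, hA x hx, hB x hx]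
  smul_mem' := fun c A hA x hx => by rw [Matrix.smul_mul, Matrix.mul_smul, hA x hx]

/-- The operators of degree `m` which commute with the derivations given by `L` and with `p`. -/
def CF (L : Set (Matrix n n ℂ)) (p : Matrix n n ℂ) (m : ℕ) : Submodule ℂ (Op n m) where
  carrier := {A | (∀ x ∈ L, A * dpow x m = dpow x m * A) ∧ A * tpow p m = tpow p m * A}
  zero_mem' := ⟨fun x _ => by rw [zero_mul, mul_zero], by rw [zero_mul, mul_zero]⟩
  add_mem' := fun {A B} hA hB => ⟨fun x hx => by rw [add_mul, mul_add, hA.1 x hx, hB.1 x hx], by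
    rw [add_mul, mul_add, hA.2, hB.2]⟩
  smul_mem' := fun c A hA => ⟨fun x hx => by rw [Matrix.smul_mul, Matrix.mul_smul, hA.1 x hx], by
    rw [Matrix.smul_mul, Matrix.mul_smul, hA.2]⟩

/-- The commutators of elements of `L`. -/
def brk (L : Submodule ℂ (Matrix n n ℂ)) : Submodule ℂ (Matrix n n ℂ) :=
  Submodule.span ℂ {y | ∃ u ∈ L, ∃ v ∈ L, y = u * v - v * u}

/-- The data: `T` are the Tate tensors (with complex coefficients, in a basis such that the Tate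
tensors of degree one are closed under adjoints), `p` is the parity. -/
structure TD (T : ∀ m, Submodule ℂ (Op n m)) (p : Matrix n n ℂ) : Prop where
  tens_one : ∀ (k j : ℕ) (A : Op n k), A ∈ T k → tens A (1 : Op n j) ∈ T (k + j)
  p_mul : p * p = 1
  p_mem : o1 p ∈ T 1
  p_fix : Fixes T p
  L1 : ∀ x : Matrix n n ℂ, (∀ A ∈ T 2, A * dpow x 2 = dpow x 2 * A) →
    ∃ (y z : Matrix n n ℂ) (c : ℂ), x = y + z + c • 1 ∧ y ∈ Ann T ∧ o1 z ∈ T 1 ∧
      ∀ a, o1 a ∈ T 1 → z * a = a * z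
  L2 : ∀ (m : ℕ) (A : Op n m), (∀ x ∈ Ann T, A * dpow x m = dpow x m * A) →
    A * tpow p m = tpow p m * A → A ∈ T m
  DC : ∀ M : Matrix n n ℂ, (∀ a, o1 a ∈ T 1 → M * a = a * M) →
    M ∈ Algebra.adjoin ℂ ({x | x ∈ Ann T} ∪ {p} : Set (Matrix n n ℂ))
  star : ∀ a, o1 a ∈ T 1 → o1 aᴴ ∈ T 1

/-- A semisimple Lie algebra of matrices. -/
structure IsSS (U : Submodule ℂ (Matrix n n ℂ)) : Prop where
  lie : ∀ u ∈ U, ∀ v ∈ U, u * v - v * u ∈ U
  nondeg : ∀ u ∈ U, (∀ v ∈ U, (u * v).trace = 0) → u = 0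
  perf : U ≤ brk U
  noab : ∀ J : Submodule ℂ (Matrix n n ℂ), J ≤ U → (∀ u ∈ U, ∀ j ∈ J, u * j - j * u ∈ J) →
    (∀ i ∈ J, ∀ j ∈ J, i * j = j * i) → J = ⊥

/-- **Piece RED**: the annihilator of the Tate tensors is the sum of a semisimple Lie algebra and of its
centre `Z`, and `Z` is closed under adjoints. -/
def S_RED : Prop := ∀ (n : Type) [Fintype n] [DecidableEq n] (T : ∀ m, Submodule ℂ (Op n m))
  (p : Matrix n n ℂ), TD T p → IsSS (brk (Ann T)) ∧
    (∀ x ∈ Ann T, ∃ u ∈ brk (Ann T), ∃ z ∈ Ann T, o1 z ∈ T 1 ∧ x = u + z) ∧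
    (∀ z ∈ Ann T, o1 z ∈ T 1 → zᴴ ∈ Ann T)

/-- **Piece KILL**: what commutes with the tensors of degree `M0` commutes with all (without adjoints
in degree `M0`). -/
def S_KILL : Prop := ∀ (n : Type) [Fintype n] [DecidableEq n] [Nonempty n]
  (T : ∀ m, Submodule ℂ (Op n m)) (p : Matrix n n ℂ), TD T p →
  (∀ x ∈ Ann T, ∃ u ∈ brk (Ann T), ∃ z ∈ Ann T, o1 z ∈ T 1 ∧ x = u + z) →
  (∀ z ∈ Ann T, o1 z ∈ T 1 → zᴴ ∈ Ann T) →
  ∀ (w : ℕ), 1 ≤ w → ∀ L0 : Set (Matrix n n ℂ), (∀ x ∈ L0, IsInt w x) → (∀ x ∈ L0, x ∈ Ann T) →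
  (∀ (k : ℕ) (c : Matrix n n ℂ) (v u : (Fin k → n) → ℂ), o1 c ∈ T 1 → v ≠ 0 → u ≠ 0 →
    EigV c v → EigV cᵀ u →
    (∀ x ∈ L0, vecMulVec v u * dpow x k = dpow x k * vecMulVec v u) →
    tens (vecMulVec v u) (vecMulVec v u) ∈ T (k + k)) →
  ∀ M0 : ℕ, M0 = 2 * ((Fintype.card n).factorial * w ^ (Fintype.card n - 1)) →
  ∀ x : Matrix n n ℂ, (∀ A ∈ T M0, A * dpow x M0 = dpow x M0 * A) → x ∈ Ann T

/-- A sequence of conjugates of `U`, by matrices `g k` which commute with `C`, which converges (in the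
bases `x` of `U` and `u` of the limit, changed by the matrices `a k`) to a Lie algebra closed under
adjoints. -/
structure Lim0 (C : Set (Matrix n n ℂ)) (d : ℕ) (x : Fin d → Matrix n n ℂ) where
  g : ℕ → Matrix n n ℂ
  a : ℕ → Matrix (Fin d) (Fin d) ℂ
  u : Fin d → Matrix n n ℂ
  lam : ℝ
  g_unit : ∀ k, IsUnit (g k).det
  g_comm : ∀ k, ∀ c ∈ C, g k * c = c * g k
  a_det : ∀ k, ‖(a k).det‖ = 1
  lim : ∀ i, Tendsto (fun k => ∑ j, a k i j • (g k * x j * (g k)⁻¹)) atTop (𝓝 (u i))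
  lam_pos : 0 < lam
  orth : ∀ i j, (u i * (u j)ᴴ).trace = if i = j then (lam : ℂ) else 0

/-- **Piece LIM1**: minimal vectors. -/
def S_LIM1 : Prop := ∀ (n : Type) [Fintype n] [DecidableEq n] (C : Set (Matrix n n ℂ))
  (_ : ∀ c ∈ C, cᴴ ∈ C) (d : ℕ) (x : Fin d → Matrix n n ℂ) (_ : ∀ i, ∀ c ∈ C, x i * c = c * x i)
  (_ : (Matrix.of fun i j => (x i * x j).trace).det ≠ 0),
  ∃ D : Lim0 C d x, ∑ i, (D.u i * (D.u i)ᴴ - (D.u i)ᴴ * D.u i) = 0

/-- **Piece KIL1**: the Killing form of a semisimple Lie algebra of matrices is nondegenerate. -/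
def S_KIL1 : Prop := ∀ (n : Type) [Fintype n] [DecidableEq n] (d : ℕ) (x : Fin d → Matrix n n ℂ)
  (_ : LinearIndependent ℂ x) (_ : IsSS (Submodule.span ℂ (Set.range x)))
  (c : Fin d → Fin d → Fin d → ℂ) (_ : ∀ i j, x i * x j - x j * x i = ∑ l, c i j l • x l),
  (Matrix.of fun i j => ∑ l, ∑ m, c i l m * c j m l).det ≠ 0

/-- **Piece KIL2**: if the Killing form is nondegenerate then there are no abelian ideals. -/
def S_KIL2 : Prop := ∀ (n : Type) [Fintype n] [DecidableEq n] (d : ℕ) (u : Fin d → Matrix n n ℂ)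
  (_ : LinearIndependent ℂ u) (c : Fin d → Fin d → Fin d → ℂ)
  (_ : ∀ i j, u i * u j - u j * u i = ∑ l, c i j l • u l)
  (_ : (Matrix.of fun i j => ∑ l, ∑ m, c i l m * c j m l).det ≠ 0)
  (J : Submodule ℂ (Matrix n n ℂ)) (_ : J ≤ Submodule.span ℂ (Set.range u))
  (_ : ∀ y ∈ Submodule.span ℂ (Set.range u), ∀ j ∈ J, y * j - j * y ∈ J)
  (_ : ∀ i ∈ J, ∀ j ∈ J, i * j = j * i), J = ⊥

/-- **Piece LIM2**: a Lie algebra of matrices with an orthogonal basis of moment zero, with nondegenerate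
trace form and without abelian ideals, is closed under adjoints. -/
def S_LIM2 : Prop := ∀ (n : Type) [Fintype n] [DecidableEq n] (d : ℕ) (u : Fin d → Matrix n n ℂ)
  (lam : ℝ) (_ : 0 < lam) (_ : ∀ i j, (u i * (u j)ᴴ).trace = if i = j then (lam : ℂ) else 0)
  (_ : ∑ i, (u i * (u i)ᴴ - (u i)ᴴ * u i) = 0)
  (_ : ∀ i j, u i * u j - u j * u i ∈ Submodule.span ℂ (Set.range u))
  (_ : (Matrix.of fun i j => (u i * u j).trace).det ≠ 0)
  (_ : ∀ J : Submodule ℂ (Matrix n n ℂ), J ≤ Submodule.span ℂ (Set.range u) →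
    (∀ y ∈ Submodule.span ℂ (Set.range u), ∀ j ∈ J, y * j - j * y ∈ J) →
    (∀ i ∈ J, ∀ j ∈ J, i * j = j * i) → J = ⊥),
  ∀ i, (u i)ᴴ ∈ Submodule.span ℂ (Set.range u)

/-- The limit data. -/
structure LimD (C : Set (Matrix n n ℂ)) (d : ℕ) (x : Fin d → Matrix n n ℂ) extends Lim0 C d x where
  lie : ∀ i j, u i * u j - u j * u i ∈ Submodule.span ℂ (Set.range u)
  star : ∀ i, (u i)ᴴ ∈ Submodule.span ℂ (Set.range u)

/-- **Piece LIM**: from the pieces LIM1, KIL1, KIL2, LIM2. -/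
def S_LIM : Prop := ∀ (n : Type) [Fintype n] [DecidableEq n] (C : Set (Matrix n n ℂ))
  (_ : ∀ c ∈ C, cᴴ ∈ C) (d : ℕ) (x : Fin d → Matrix n n ℂ) (_ : ∀ i, ∀ c ∈ C, x i * c = c * x i)
  (_ : LinearIndependent ℂ x) (_ : IsSS (Submodule.span ℂ (Set.range x))), Nonempty (LimD C d x)

/-- **Piece NIL**: an endomorphism of a semisimple Lie algebra, symmetric in the sense that it carries the
trace form to an invariant form `b`, which is nilpotent, is zero; in terms of matrices: if `b` is the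
trace form of a representation `r` on `N` and `B` is the trace form of the matrices then `B⁻¹ b`
nilpotent implies that the representation is zero. -/
def S_NIL : Prop := ∀ (n : Type) [Fintype n] [DecidableEq n] (d : ℕ) (x : Fin d → Matrix n n ℂ)
  (_ : LinearIndependent ℂ x) (_ : IsSS (Submodule.span ℂ (Set.range x)))
  (N : Type) [Fintype N] [DecidableEq N] (r : Matrix n n ℂ →ₗ[ℂ] Matrix N N ℂ)
  (_ : ∀ i j, r (x i * x j - x j * x i) = r (x i) * r (x j) - r (x j) * r (x i))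
  (_ : IsNilpotent ((Matrix.of fun i j => (x i * x j).trace)⁻¹ *
    (Matrix.of fun i j => (r (x i) * r (x j)).trace))),
  ∀ i, r (x i) = 0

/-- **Piece DIM** (from NIL and analysis): the dimension of the invariants does not change in the limit.
Here `W` is stable under everything that commutes with `C`. -/
def S_DIM : Prop := ∀ (n : Type) [Fintype n] [DecidableEq n] (C : Set (Matrix n n ℂ)) (d : ℕ)
  (x : Fin d → Matrix n n ℂ) (_ : ∀ i, ∀ c ∈ C, x i * c = c * x i)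
  (_ : LinearIndependent ℂ x) (_ : IsSS (Submodule.span ℂ (Set.range x))) (D : LimD C d x) (m : ℕ)
  (W : Submodule ℂ (Op n m))
  (_ : ∀ y : Matrix n n ℂ, (∀ c ∈ C, y * c = c * y) → ∀ A ∈ W, dpow y m * A - A * dpow y m ∈ W)
  (_ : ∀ g : Matrix n n ℂ, IsUnit g.det → (∀ c ∈ C, g * c = c * g) → ∀ A ∈ W,
    tpow g m * A * tpow g⁻¹ m ∈ W),
  finrank ℂ ↥(W ⊓ CL (Set.range x) m) = finrank ℂ ↥(W ⊓ CL (Set.range D.u) m)

/-- **Piece CONV**: limits of subspaces. -/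
def S_CONV : Prop := ∀ (E : Type) [NormedAddCommGroup E] [NormedSpace ℂ E] [FiniteDimensional ℂ E]
  (S : ℕ → Submodule ℂ E) (S' : Submodule ℂ E) (_ : ∀ k, finrank ℂ (S k) = finrank ℂ S')
  (_ : ∀ φ : ℕ → ℕ, StrictMono φ → ∀ A : ℕ → E, (∀ k, A k ∈ S (φ k)) →
    ∀ a, Tendsto A atTop (𝓝 a) → a ∈ S'),
  ∀ a ∈ S', ∃ A : ℕ → E, (∀ k, A k ∈ S k) ∧ Tendsto A atTop (𝓝 a)

/-- **Piece SEMI**: the dimension of a limit of subspaces is not larger. -/
def S_SEMI : Prop := ∀ (E : Type) [NormedAddCommGroup E] [NormedSpace ℂ E] [FiniteDimensional ℂ E]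
  (S : ℕ → Submodule ℂ E) (s : ℕ) (_ : ∀ k, finrank ℂ (S k) = s) (S' : Submodule ℂ E)
  (_ : ∀ a ∈ S', ∃ A : ℕ → E, (∀ k, A k ∈ S k) ∧ Tendsto A atTop (𝓝 a)), finrank ℂ S' ≤ s

/-- **Piece CLO**: the families `CF` are systems. -/
def S_CLO : Prop := ∀ (n : Type) [Fintype n] [DecidableEq n] (L : Set (Matrix n n ℂ))
  (p : Matrix n n ℂ), p * p = 1 → ∃ P : PSys0 n, ∀ m, P.S m = CF L p m

/-- **Piece CJ**: conjugates of systems are systems. -/
def S_CJ : Prop := ∀ (n : Type) [Fintype n] [DecidableEq n] (P0 : PSys0 n) (P : Matrix n n ℂ),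
  IsUnit P.det → ∃ P1 : PSys0 n, ∀ m, P1.S m = (P0.S m).map (cjm P m)

/-- **Piece MET**: an algebra of matrices with nondegenerate trace form is closed under adjoints in a
suitable basis. -/
def S_MET : Prop := ∀ (n : Type) [Fintype n] [DecidableEq n] (A : Subalgebra ℂ (Matrix n n ℂ)),
  (∀ a ∈ A, (∀ b ∈ A, (a * b).trace = 0) → a = 0) →
  ∃ P : Matrix n n ℂ, IsUnit P.det ∧ ∀ a ∈ A, P * (P⁻¹ * a * P)ᴴ * P⁻¹ ∈ A

/-- **Piece DCA**: the double commutant of the Galois group. -/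
def S_DCA : Prop := ∀ (ℓ : ℕ) [Fact ℓ.Prime] (n : Type) [Fintype n] [DecidableEq n] (Γ : Type)
  [Group Γ] (D : GalData ℓ n Γ) (M : Matrix n n ℚ_[ℓ]),
  (∀ a, IsPot D.R D.p a → M * a = a * M) →
  M ∈ Algebra.adjoin ℚ_[ℓ] ({y | ∀ m, ∀ A ∈ PotOp D.R D.p m,
    A * dpowK _ y m = dpowK _ y m * A} ∪ {D.p} : Set (Matrix n n ℚ_[ℓ]))

/-- **Piece DCB**: the trace form on the potential endomorphisms is nondegenerate. -/
def S_DCB : Prop := ∀ (ℓ : ℕ) [Fact ℓ.Prime] (n : Type) [Fintype n] [DecidableEq n] (Γ : Type)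
  [Group Γ] (D : GalData ℓ n Γ) (a : Matrix n n ℚ_[ℓ]), IsPot D.R D.p a →
  (∀ b, IsPot D.R D.p b → (a * b).trace = 0) → a = 0

/-- **The abstract theorem** (assembly of the pieces RED, KILL, LIM, DIM, CONV, SEMI, CLO, CJ). -/
def S_ABS : Prop := ∀ (n : Type) [Fintype n] [DecidableEq n] [Nonempty n]
  (T : ∀ m, Submodule ℂ (Op n m)) (p : Matrix n n ℂ), TD T p →
  ∀ (w : ℕ), 1 ≤ w → ∀ L0 : Set (Matrix n n ℂ), (∀ x ∈ L0, IsInt w x) → (∀ x ∈ L0, x ∈ Ann T) →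
  (∀ (k : ℕ) (c : Matrix n n ℂ) (v u : (Fin k → n) → ℂ), o1 c ∈ T 1 → v ≠ 0 → u ≠ 0 →
    EigV c v → EigV cᵀ u →
    (∀ x ∈ L0, vecMulVec v u * dpow x k = dpow x k * vecMulVec v u) →
    tens (vecMulVec v u) (vecMulVec v u) ∈ T (k + k)) →
  ∀ M0 : ℕ, M0 = 2 * ((Fintype.card n).factorial * w ^ (Fintype.card n - 1)) →
  ∀ S : PSys0 n, (∀ m, S.S m ≤ T m) →
  (T M0 ≤ S.S M0 → ∀ m, Module.finrank ℂ (T m) ≤
      (2 * Fintype.card n * M0) ^ (2 * Fintype.card n ^ 2) * Module.finrank ℂ (S.S m)) ∧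
    ∀ m : ℕ, (Fintype.card n : ℝ) ^ 3 * (M0 : ℝ) ^ 2 * Real.log (2 * Fintype.card n * M0 + 1) ≤ m →
      T m ≤ S.S m → ∀ k, T k = S.S k

end Pool.Agent.E8helper1.TW
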