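import Pool.Agent.E8helper1.TW.Stm2

/-!
# The theorem on the level of matrices
-/

set_option autoImplicit false
set_option linter.unusedSectionVars false

open Matrix Module

namespace Pool.Agent.E8helper1.TW

open Pool.Agent.E8helper1.TX Pool.Agent.E8helper56.TX Pool.Agent.E8helper41.TX
open Pool.Agent.E8helper56.TY
open Pool.Agent.E8helper63.TX (t_DIM1 t_DIM2 t_DIM3 slice_mem mul_map_map exists_dual_ne)
open Pool.Agent.E8helper1.CT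
open Pool.Agent.E8helper1.AP (Jb exists_jb fK fK_unit)

variable {ℓ : ℕ} [Fact ℓ.Prime] {n : Type} [Fintype n] [DecidableEq n] {Γ : Type} [Group Γ]
  [Algebra ℚ_[ℓ] ℂ] {P : Matrix n n ℂ}

theorem cj_add (a b : Matrix n n ℚ_[ℓ]) : cj P (a + b) = cj P a + cj P b := by
  unfold Pool.Agent.E8helper56.TY.cj
  have h : (a + b).map (algebraMap ℚ_[ℓ] ℂ) = a.map (algebraMap ℚ_[ℓ] ℂ) +
      b.map (algebraMap ℚ_[ℓ] ℂ) := by
    ext i j
    simp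
  rw [h, Matrix.mul_add, Matrix.add_mul]

theorem cj_scalar (hP : IsUnit P.det) (c : ℚ_[ℓ]) :
    cj P (algebraMap ℚ_[ℓ] (Matrix n n ℚ_[ℓ]) c) =
      algebraMap ℂ (Matrix n n ℂ) (algebraMap ℚ_[ℓ] ℂ c) := by
  unfold Pool.Agent.E8helper56.TY.cj
  have h : (algebraMap ℚ_[ℓ] (Matrix n n ℚ_[ℓ]) c).map (algebraMap ℚ_[ℓ] ℂ) =
      (algebraMap ℚ_[ℓ] ℂ c) • (1 : Matrix n n ℂ) := by
    ext i j
    rw [Algebra.algebraMap_eq_smul_one]
    by_cases hij : i = j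
    · subst hij
      simp
    · simp [Matrix.one_apply_ne hij]
  rw [h, Matrix.mul_smul, Matrix.mul_one, Matrix.smul_mul, Matrix.nonsing_inv_mul _ hP]
  exact (Algebra.algebraMap_eq_smul_one _).symm

/-- the double commutant over the complex numbers -/
theorem dcc (hDCA : S_DCA) (hP : IsUnit P.det) (D : GalData ℓ n Γ) (M : Matrix n n ℂ)
    (h : ∀ a, o1 a ∈ TC D P 1 → M * a = a * M) :
    M ∈ Algebra.adjoin ℂ ({x | x ∈ Ann (TC D P)} ∪ {cj P D.p} : Set (Matrix n n ℂ)) := by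
  let Y : Set (Matrix n n ℚ_[ℓ]) := {a | IsPot D.R D.p a}
  have hback : P⁻¹ * (P * M * P⁻¹) * P = M := back hP M
  have h3 : P * M * P⁻¹ ∈ bcM ℚ_[ℓ] (cS Y) := by
    refine t_DIM3 ℚ_[ℓ] n Y (cS Y) (fun _ => Iff.rfl) _ fun a ha => ?_
    have h1 : o1 (cj P a) ∈ TC D P 1 := by
      rw [mem_TC_one hP]
      obtain ⟨⟨Δ, hΔ, h1⟩, h2⟩ := ha
      refine ⟨⟨Δ, hΔ, fun g hg => ?_⟩, ?_⟩
      · rw [← cj_mul hP, ← cj_mul hP, h1 g hg]
      · rw [← cj_mul hP, ← cj_mul hP, h2]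
    have h2 := h _ h1
    unfold Pool.Agent.E8helper56.TY.cj at h2
    have e1 : P * (M * (P⁻¹ * a.map (algebraMap ℚ_[ℓ] ℂ) * P)) * P⁻¹ =
        P * M * P⁻¹ * a.map (algebraMap ℚ_[ℓ] ℂ) := by
      calc _ = P * M * P⁻¹ * a.map (algebraMap ℚ_[ℓ] ℂ) * (P * P⁻¹) := by
            simp only [Matrix.mul_assoc]
        _ = _ := by rw [Matrix.mul_nonsing_inv _ hP, Matrix.mul_one]
    have e2 : P * ((P⁻¹ * a.map (algebraMap ℚ_[ℓ] ℂ) * P) * M) * P⁻¹ =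
        a.map (algebraMap ℚ_[ℓ] ℂ) * (P * M * P⁻¹) := by
      calc _ = (P * P⁻¹) * a.map (algebraMap ℚ_[ℓ] ℂ) * (P * M * P⁻¹) := by
            simp only [Matrix.mul_assoc]
        _ = _ := by rw [Matrix.mul_nonsing_inv _ hP, Matrix.one_mul]
    rw [← e1, ← e2, h2]
  rw [← hback]
  have key : ∀ K ∈ Algebra.adjoin ℚ_[ℓ] ({y | ∀ m, ∀ A ∈ PotOp D.R D.p m,
      A * dpowK _ y m = dpowK _ y m * A} ∪ {D.p} : Set (Matrix n n ℚ_[ℓ])),
      cj P K ∈ Algebra.adjoin ℂ ({x | x ∈ Ann (TC D P)} ∪ {cj P D.p} : Set (Matrix n n ℂ)) := by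
    intro K hK
    induction hK using Algebra.adjoin_induction with
    | mem y hy =>
      refine Algebra.subset_adjoin ?_
      rcases hy with hy | hy
      · exact Or.inl (cj_ann hP D hy)
      · rw [Set.mem_singleton_iff] at hy
        rw [hy]
        exact Or.inr rfl
    | algebraMap c =>
      rw [cj_scalar hP]
      exact Subalgebra.algebraMap_mem _ _
    | add a b _ _ ha hb =>
      rw [cj_add]
      exact Subalgebra.add_mem _ ha hb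
    | mul a b _ _ ha hb =>
      rw [cj_mul hP]
      exact Subalgebra.mul_mem _ ha hb
  refine Submodule.span_induction (p := fun N _ => P⁻¹ * N * P ∈ Algebra.adjoin ℂ
    ({x | x ∈ Ann (TC D P)} ∪ {cj P D.p} : Set (Matrix n n ℂ))) ?_ ?_ ?_ ?_ h3
  · rintro _ ⟨K, hK, rfl⟩
    exact key K (hDCA ℓ n Γ D K fun a ha => hK a ha)
  · rw [Matrix.mul_zero, Matrix.zero_mul]
    exact Subalgebra.zero_mem _
  · intro a b _ _ ha hb
    rw [Matrix.mul_add, Matrix.add_mul]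
    exact Subalgebra.add_mem _ ha hb
  · intro c a _ ha
    rw [Matrix.mul_smul, Matrix.smul_mul]
    exact Subalgebra.smul_mem _ ha c

/-- the complex algebra of the potential endomorphisms -/
def potA (D : GalData ℓ n Γ) : Subalgebra ℂ (Matrix n n ℂ) where
  carrier := {a | (∃ Δ : Subgroup Γ, Δ.FiniteIndex ∧ ∀ g ∈ Δ,
    a * (D.R g).map (algebraMap ℚ_[ℓ] ℂ) = (D.R g).map (algebraMap ℚ_[ℓ] ℂ) * a) ∧
    a * D.p.map (algebraMap ℚ_[ℓ] ℂ) = D.p.map (algebraMap ℚ_[ℓ] ℂ) * a}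
  mul_mem' := by
    rintro a b ⟨⟨Δ, hΔ, h1⟩, h2⟩ ⟨⟨Δ', hΔ', h1'⟩, h2'⟩
    refine ⟨⟨Δ ⊓ Δ', inferInstance, fun g hg => ?_⟩, ?_⟩
    · rw [Matrix.mul_assoc, h1' g hg.2, ← Matrix.mul_assoc, h1 g hg.1, Matrix.mul_assoc]
    · rw [Matrix.mul_assoc, h2', ← Matrix.mul_assoc, h2, Matrix.mul_assoc]
  add_mem' := by
    rintro a b ⟨⟨Δ, hΔ, h1⟩, h2⟩ ⟨⟨Δ', hΔ', h1'⟩, h2'⟩
    refine ⟨⟨Δ ⊓ Δ', inferInstance, fun g hg => ?_⟩, ?_⟩
    · rw [Matrix.mul_add, Matrix.add_mul, h1' g hg.2, h1 g hg.1]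
    · rw [Matrix.mul_add, Matrix.add_mul, h2', h2]
  algebraMap_mem' := by
    intro c
    refine ⟨⟨⊤, inferInstance, fun g _ => ?_⟩, ?_⟩
    · exact Algebra.commutes _ _
    · exact Algebra.commutes _ _

theorem potA_nondeg (hDCB : S_DCB) (D : GalData ℓ n Γ) (a : Matrix n n ℂ) (ha : a ∈ potA D)
    (h : ∀ b ∈ potA D, (a * b).trace = 0) : a = 0 := by
  obtain ⟨⟨Δ, hΔ, h1⟩, h2⟩ := ha
  let Y : Set (Matrix n n ℚ_[ℓ]) := {y | (∃ g ∈ Δ, y = D.R g) ∨ y = D.p}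
  have h3 : a ∈ bcM ℚ_[ℓ] (cS Y) := by
    refine t_DIM3 ℚ_[ℓ] n Y (cS Y) (fun _ => Iff.rfl) _ ?_
    rintro y (⟨g, hg, rfl⟩ | rfl)
    · exact h1 g hg
    · exact h2
  have h4 : ∀ f : ℂ →ₗ[ℚ_[ℓ]] ℚ_[ℓ], a.map f = 0 := by
    intro f
    have h5 := slice_mem h3 f
    have h6 : IsPot D.R D.p (a.map f) :=
      ⟨⟨Δ, hΔ, fun g hg => h5 _ (Or.inl ⟨g, hg, rfl⟩)⟩, h5 _ (Or.inr rfl)⟩
    refine hDCB ℓ n Γ D _ h6 fun b hb => ?_
    obtain ⟨⟨Δ', hΔ', h1'⟩, h2'⟩ := hb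
    have h7 : b.map (algebraMap ℚ_[ℓ] ℂ) ∈ potA D := by
      refine ⟨⟨Δ', hΔ', fun g hg => ?_⟩, ?_⟩
      · rw [← map_mul', ← map_mul', h1' g hg]
      · rw [← map_mul', ← map_mul', h2']
    have h8 := h _ h7
    rw [← mul_map_map]
    have h9 : ((a * b.map (algebraMap ℚ_[ℓ] ℂ)).map f).trace =
        f (a * b.map (algebraMap ℚ_[ℓ] ℂ)).trace := by
      simp only [Matrix.trace, Matrix.diag_apply, Matrix.map_apply, map_sum]
    rw [h9, h8, map_zero]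
  ext i j
  refine exists_dual_ne (K := ℚ_[ℓ]) fun f => ?_
  have h5 := congrFun (congrFun (h4 f) i) j
  exact h5

/-- the basis in which the potential endomorphisms are closed under adjoints -/
theorem exists_P (hMET : S_MET) (hDCB : S_DCB) (D : GalData ℓ n Γ) :
    ∃ P : Matrix n n ℂ, IsUnit P.det ∧ ∀ a, o1 a ∈ TC D P 1 → o1 aᴴ ∈ TC D P 1 := by
  obtain ⟨P, hP, hs⟩ := hMET n (potA D) (potA_nondeg hDCB D)
  refine ⟨P, hP, ?_⟩
  have key : ∀ a : Matrix n n ℂ, o1 a ∈ TC D P 1 ↔ P * a * P⁻¹ ∈ potA D := by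
    intro a
    have e : ∀ y : Matrix n n ℂ, (P * a * P⁻¹ * y = y * (P * a * P⁻¹) ↔
        a * (P⁻¹ * y * P) = P⁻¹ * y * P * a) := by
      intro y
      exact (comm_conj P⁻¹ P a y (Matrix.mul_nonsing_inv _ hP) (Matrix.nonsing_inv_mul _ hP)).symm
    rw [mem_TC_one hP]
    unfold Pool.Agent.E8helper56.TY.cj
    constructor
    · rintro ⟨⟨Δ, hΔ, h1⟩, h2⟩
      exact ⟨⟨Δ, hΔ, fun g hg => (e _).2 (h1 g hg)⟩, (e _).2 h2⟩
    · rintro ⟨⟨Δ, hΔ, h1⟩, h2⟩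
      exact ⟨⟨Δ, hΔ, fun g hg => (e _).1 (h1 g hg)⟩, (e _).1 h2⟩
  intro a ha
  rw [key] at ha ⊢
  have h1 := hs _ ha
  rwa [back hP] at h1

theorem t_ASMQ (hABS : S_ABS) (hCJ : S_CJ) (hMET : S_MET) (hDCA : S_DCA) (hDCB : S_DCB)
    (hWSL : S_WSL) : S_ASMQ := by
  intro ℓ _ _ n _ _ Γ _ D d W S P0 hP0 hle hn
  classical
  obtain ⟨P, hP, hstar⟩ := exists_P hMET hDCB D
  obtain ⟨P1, hP1⟩ := hCJ n P0 P hP
  have hST : ∀ m, P1.S m ≤ TC D P m := by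
    intro m
    rw [hP1 m, hP0 m]
    exact Submodule.map_mono (bcM_mono (hle m))
  have hpp : cj P D.p * cj P D.p = 1 := by
    rw [← cj_mul hP, D.p_mul, cj_one hP]
  have hTD : TD (TC D P) (cj P D.p) :=
    { tens_one := TC_tens hP D
      p_mul := hpp
      p_mem := TC_p hP D
      p_fix := TC_fixes hP D
      L1 := TC_L1 hP D
      L2 := TC_L2 hP D
      DC := dcc hDCA hP D
      star := hstar }
  let J : ∀ γ : Γ, Jb (Matrix.toLin' ((D.R γ).map (algebraMap ℚ_[ℓ] ℂ))) := fun γ =>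
    Classical.choice (exists_jb _)
  have hweil : ∀ γ ∈ W.F, ∃ (Λ : Set (Additive ℂˣ →+ ℂ)) (V : Set ℂˣ),
      (∀ q, ∀ h : (J γ).lam q ≠ 0, Units.mk0 ((J γ).lam q) h ∈ V) ∧
      (∀ s ∈ Λ, ∀ lam ∈ V, ∃ z : ℤ, |z| ≤ ((2 * d + 1) * (Fintype.card n).factorial : ℕ) ∧
        s (Additive.ofMul lam) = z) ∧
      ∀ u ∈ Subgroup.closure V, (∀ s ∈ Λ, s (Additive.ofMul u) = 0) →
        u ^ (2 * (Fintype.card n).factorial).factorial = 1 := by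
    intro γ hγ
    obtain ⟨q, Pi, hq, hmon, hdeg, hroot, hsl, hchar⟩ := W.weil γ hγ
    obtain ⟨Λ, h1, h2⟩ := hWSL (Fintype.card n) d W.e q W.e_pos hq Pi hmon hdeg hroot hsl
    exact ⟨Λ, {lam : ℂˣ | IsW q W.e Pi lam}, fun q h => hchar _ (lam_root (J γ) q), h1, h2⟩
  choose! Λ V hV1 hV2 hV3 using hweil
  have hlam : ∀ γ q, (J γ).lam q ≠ 0 := fun γ => lam_ne (J γ) (RC_inj D γ)
  have hfac : 1 ≤ (Fintype.card n).factorial := Nat.factorial_pos _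
  have main := hABS n (TC D P) (cj P D.p) hTD ((2 * d + 1) * (Fintype.card n).factorial)
    (by nlinarith)
    {x | ∃ γ ∈ W.F, ∃ s ∈ Λ γ, x = P⁻¹ * slopM (J γ) s * P}
    (by
      rintro _ ⟨γ, hγ, s, hs, rfl⟩
      refine slope_int hP (J γ) s _ fun q => ?_
      obtain ⟨z, hz1, hz2⟩ := hV2 γ hγ s hs _ (hV1 γ hγ q (hlam γ q))
      exact ⟨z, hz1, (fK_unit s (Units.mk0 _ (hlam γ q))).trans hz2⟩)
    (by
      rintro _ ⟨γ, hγ, s, hs, rfl⟩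
      exact slope_ann D hP γ (J γ) s)
    (by
      intro k c v u hc hv hu hEv hEu hL
      refine det_char hP D W.F W.M W.M_pos W.dense (2 * (Fintype.card n).factorial).factorial
        (Nat.factorial_pos _) k c v u hc hv hu hEv hEu ?_
      intro γ hγ j a b ha hb e1 e2
      exact key_gamma hP D γ k _ (vecMulVec_ne hv hu) j a b ha hb e1 e2 (J γ) (Λ γ)
        (fun s hs => hL _ ⟨γ, hγ, s, hs, rfl⟩) (V γ) (hV1 γ hγ) _ (hV3 γ hγ))
    (M5 (Fintype.card n) d) rfl P1 hST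
  have hmono : ∀ m, PotOp D.R D.p m ≤ S m → TC D P m ≤ P1.S m := by
    intro m h
    rw [hP1 m, hP0 m]
    exact Submodule.map_mono (bcM_mono h)
  constructor
  · intro h m
    have h1 := main.1 (hmono _ h) m
    have e1 : finrank ℂ (TC D P m) = finrank ℚ_[ℓ] (PotOp D.R D.p m) := by
      rw [TC, finrank_map_cjm hP, t_DIM1]
    have e2 : finrank ℂ (P1.S m) = finrank ℚ_[ℓ] (S m) := by
      rw [hP1 m, finrank_map_cjm hP, hP0 m, t_DIM1]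
    rwa [e1, e2] at h1
  · intro m hm hTm j
    have h3 := main.2 m hm (hmono _ hTm) j
    refine le_antisymm ?_ (hle j)
    rw [TC, hP1 j, hP0 j] at h3
    have h4 : bcM ℚ_[ℓ] (PotOp D.R D.p j) = bcM ℚ_[ℓ] (S j) :=
      Submodule.map_injective_of_injective (cjm_inj hP) h3
    intro M hM
    exact t_DIM2 ℚ_[ℓ] (Fin j → n) (S j) M (h4.le (mem_bcM hM))

end Pool.Agent.E8helper1.TW
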