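import Pool.Agent.E8helper1.TW.Stm

/-!
# One power decides in every characteristic: statements of the arithmetic pieces
-/

set_option autoImplicit false

namespace Pool.Agent.E8helper1.TW

open Matrix Module Polynomial NumberField IsDedekindDomain
open Pool.Agent.E8helper1.TX Pool.Agent.E8helper56.TX Pool.Agent.E8helper56.TY

/-- The slopes of the roots of the polynomials `P i`, normalized such that `q` has slope one, are integral
multiples of `1 / N!` (a theorem on Newton polygons of crystals, for `N` at least the degree). -/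
def SlopesIn (N : ℕ) {d : ℕ} (q : ℕ) (P : Fin (2 * d + 1) → ℤ[X]) : Prop :=
  ∀ (K : Type) [Field K] [NumberField K] (v : HeightOneSpectrum (𝓞 K)) (i : Fin (2 * d + 1)) (α : K),
    aeval α (P i) = 0 → ∃ j : ℕ, v.valuation K α ^ N.factorial = v.valuation K (q : K) ^ j

/-- **Piece WSL**: the slopes of Weil numbers for `q` a power of a prime (compare `weil_slopes` in
`Pool.Agent.E8helper56.TY.Weil`, which is the case `q = p`). -/
def S_WSL : Prop := ∀ (N d e q : ℕ), 0 < e → IsPrimePow q → ∀ P : Fin (2 * d + 1) → ℤ[X],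
  (∀ i, (P i).Monic) → ∑ i, (P i).natDegree ≤ N →
  (∀ i (r : ℂ), aeval r (P i) = 0 → ‖r‖ ^ 2 = (q : ℝ) ^ (i : ℕ)) → SlopesIn N q P →
  ∃ Λ : Set (Additive ℂˣ →+ ℂ),
    (∀ s ∈ Λ, ∀ lam : ℂˣ, IsW q e P lam → ∃ z : ℤ, |z| ≤ ((2 * d + 1) * N.factorial : ℕ) ∧
      s (Additive.ofMul lam) = z) ∧
    ∀ u ∈ Subgroup.closure {lam : ℂˣ | IsW q e P lam}, (∀ s ∈ Λ, s (Additive.ofMul u) = 0) →
      u ^ (2 * N.factorial).factorial = 1

/-- The Frobenius elements, for the normalized action `D.R`, over a field of positive characteristic: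
the eigenvalues are the numbers `(α ^ 2 / q ^ i) ^ e`. -/
structure FrobQ {ℓ : ℕ} [Fact ℓ.Prime] [Algebra ℚ_[ℓ] ℂ] {n : Type} [Fintype n]
    [DecidableEq n] {Γ : Type} [Group Γ] (D : GalData ℓ n Γ) (d : ℕ) where
  F : Set Γ
  M : ℕ
  M_pos : 0 < M
  e : ℕ
  e_pos : 0 < e
  dense : ∀ (g : Γ) (ε : ℝ), 0 < ε → ∃ γ ∈ F, ∀ i j, ‖D.R γ i j - D.R (g ^ M) i j‖ < ε
  weil : ∀ γ ∈ F, ∃ (q : ℕ) (P : Fin (2 * d + 1) → Polynomial ℤ), IsPrimePow q ∧
    (∀ i, (P i).Monic) ∧ ∑ i, (P i).natDegree ≤ Fintype.card n ∧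
    (∀ i (r : ℂ), Polynomial.aeval r (P i) = 0 → ‖r‖ ^ 2 = (q : ℝ) ^ (i : ℕ)) ∧
    SlopesIn (Fintype.card n) q P ∧
    ∀ lam : ℂ, ((D.R γ).map (algebraMap ℚ_[ℓ] ℂ)).charpoly.IsRoot lam →
      ∃ (i : Fin (2 * d + 1)) (α : ℂ), Polynomial.aeval α (P i) = 0 ∧
        lam * (q : ℂ) ^ ((i : ℕ) * e) = α ^ (2 * e)

/-- **The theorem on the level of matrices**: no adjoints. -/
def S_ASMQ : Prop := ∀ (ℓ : ℕ) [Fact ℓ.Prime] [Algebra ℚ_[ℓ] ℂ] (n : Type) [Fintype n]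
  [DecidableEq n] (Γ : Type) [Group Γ] (D : GalData ℓ n Γ) (d : ℕ) (_ : FrobQ D d)
  (S : ∀ m, Submodule ℚ_[ℓ] (Matrix (Fin m → n) (Fin m → n) ℚ_[ℓ])) (P0 : PSys0 n)
  (_ : ∀ m, P0.S m = bcM ℚ_[ℓ] (S m))
  (_ : ∀ m, S m ≤ PotOp D.R D.p m) (_ : Nonempty n),
  (PotOp D.R D.p (M5 (Fintype.card n) d) ≤ S (M5 (Fintype.card n) d) →
    ∀ m, finrank ℚ_[ℓ] (PotOp D.R D.p m) ≤
      (2 * Fintype.card n * M5 (Fintype.card n) d) ^ (2 * Fintype.card n ^ 2) *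
        finrank ℚ_[ℓ] (S m)) ∧
  ∀ m : ℕ, (Fintype.card n : ℝ) ^ 3 * (M5 (Fintype.card n) d : ℝ) ^ 2 *
      Real.log (2 * Fintype.card n * M5 (Fintype.card n) d + 1) ≤ m → PotOp D.R D.p m ≤ S m →
    ∀ j, PotOp D.R D.p j = S j

end Pool.Agent.E8helper1.TW
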