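import Pool.Agent.E8helper1.TX.Frob2
import Pool.Agent.E8helper1.TW.Stm2

/-!
# Frobenius elements in every characteristic: construction of the data
-/

open CategoryTheory AlgebraicGeometry

universe u v

namespace Pool.Agent.E8helper1.TW

open Module Matrix Polynomial NumberField IsDedekindDomain
open Pool.Agent.H914 Pool.Agent.H914.VarClass Pool.Agent.H914.VarClass.Obj
  Pool.Agent.H914.WeilCohomology
open Pool.Agent.Y133.Half (Sys PH)
open Pool.Agent.Y129 (pw pj PowerAction TG tateClasses)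
open Pool.Agent.E8helper1.TX

set_option linter.unusedSectionVars false

/-- The slopes of the roots of the polynomial `P`, normalized such that `q` has slope one, are integral
multiples of `1 / N!`, where `N` is the degree of `P`. -/
def Newton (q : ℕ) (P : ℤ[X]) : Prop :=
  ∀ (K : Type) [Field K] [NumberField K] (v : HeightOneSpectrum (𝓞 K)) (α : K),
    aeval α P = 0 →
    ∃ j : ℕ, v.valuation K α ^ P.natDegree.factorial = v.valuation K (q : K) ^ j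

theorem slopesIn_of {N d q : ℕ} {P : Fin (2 * d + 1) → ℤ[X]} (hP : ∀ i, (P i).natDegree ≤ N)
    (h : ∀ i, Newton q (P i)) : SlopesIn N q P := by
  intro K _ _ v i α hα
  obtain ⟨j, hj⟩ := h i K v α hα
  obtain ⟨c, hc⟩ := Nat.factorial_dvd_factorial (hP i)
  refine ⟨j * c, ?_⟩
  rw [hc, pow_mul, hj, pow_mul]

variable {k : Type u} [Field k] {𝒱 : VarClass k} {ops : CycleOps 𝒱}
  {W : WeilCohomology.{u, 0} ops} {X : 𝒱.Obj}

variable {Γ : Type} [Group Γ] {χ : Γ →* W.Kˣ}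
  {ρ : ∀ n, Γ →* (W.H (pw X n) ≃ₐ[W.K] W.H (pw X n))}
  {ι : Type} [Fintype ι] [DecidableEq ι] (v : Basis ι W.K (W.H X))
  {ℓ : ℕ} [Fact ℓ.Prime] (φ : W.K ≃+* ℚ_[ℓ])

/-- The element `γ` is a Frobenius element at a place with residue field of order `q`. -/
def IsFrobQ (ρ : ∀ n, Γ →* (W.H (pw X n) ≃ₐ[W.K] W.H (pw X n))) (q : ℕ) (γ : Γ) : Prop :=
  ∀ i, ∃ P : ℤ[X], P.Monic ∧ P.natDegree ≤ finrank W.K (W.gr X i) ∧
    (∀ z : ℂ, aeval z P = 0 → ‖z‖ ^ 2 = (q : ℝ) ^ i) ∧ Newton q P ∧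
    ∀ a ∈ W.gr X i, (aeval (rep1 ρ γ) P : Module.End W.K (W.H X)) a = 0

/-- The Frobenius elements are dense. -/
def FrobDenseQ (χ : Γ →* W.Kˣ) (ρ : ∀ n, Γ →* (W.H (pw X n) ≃ₐ[W.K] W.H (pw X n))) : Prop :=
  ∀ (g : Γ) (ε : ℝ), 0 < ε → ∃ (γ : Γ) (q : ℕ), IsPrimePow q ∧ (χ γ : W.K) = q ∧ IsFrobQ ρ q γ ∧
    ‖φ (χ γ) - φ (χ g)‖ < ε ∧ ∀ a b, ‖Aq v φ ρ γ a b - Aq v φ ρ g a b‖ < ε

section frob

variable [Algebra ℚ_[ℓ] ℂ] {dg : ι → ℕ} (hv : ∀ i, v i ∈ W.gr X (dg i))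

/-- **The Frobenius data.** -/
noncomputable def frobDataQ [Nontrivial (W.H X)] (h : PowerAction W X χ ρ) (Δ : Subgroup Γ)
    (θ : Δ →* W.Kˣ) (hθ : ∀ g, θ g ^ 2 = (χ.comp Δ.subtype) g)
    (hlat : ∀ g i j, ‖φ (v.repr (rres ρ Δ 0 g (v j)) i)‖ ≤ 1)
    (hlat' : ∀ g i j, ‖φ (v.repr (ρ 0 g (v j)) i)‖ ≤ 1) (hχ : ∀ g, ‖φ (χ g : W.K)‖ = 1)
    (hθ1 : ∀ g, ‖φ ((θ g : W.Kˣ) : W.K)‖ = 1) (hSSG : S_SSG) (hss : SemisimpleH (rres ρ Δ))
    (hF : FrobDenseQ v φ χ ρ) {M1 : ℕ} (hM0 : 0 < M1) (hM1 : ∀ g : Γ, g ^ M1 ∈ Δ) :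
    FrobQ (galData v φ hv (power_restrict h Δ) hθ hlat hθ1 hSSG hss) X.dim where
  F := {s | ∃ (γ : Γ) (q : ℕ), IsPrimePow q ∧ (χ γ : W.K) = q ∧ IsFrobQ ρ q γ ∧
    (s : Γ) = γ ^ (2 * M1)}
  M := 2 * M1
  M_pos := by omega
  e := M1
  e_pos := hM0
  dense g ε hε := by
    obtain ⟨γ, p, hp, hγ, hfr, hd1, hd2⟩ := hF (g : Γ) ε hε
    have hmem : γ ^ (2 * M1) ∈ Δ := by
      rw [pow_mul]
      exact hM1 _
    refine ⟨⟨γ ^ (2 * M1), hmem⟩, ⟨γ, p, hp, hγ, hfr, rfl⟩, fun a b => ?_⟩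
    change ‖Rq v φ (power_restrict h Δ) θ ⟨γ ^ (2 * M1), hmem⟩ a b -
      Rq v φ (power_restrict h Δ) θ (g ^ (2 * M1)) a b‖ < ε
    rw [Rq_res v φ h hv, Rq_res v φ h hv, theta_sq φ hθ hM1 _ γ rfl,
      theta_sq φ hθ hM1 (g ^ (2 * M1)) (g : Γ) rfl]
    have h1 : NearM ε (Aq v φ ρ γ) (Aq v φ ρ g) := fun i j =>
      ⟨by rw [Aq_apply]; exact hlat' γ i j, by rw [Aq_apply]; exact hlat' g i j, hd2 i j⟩
    have h2 : Near ε (φ (χ γ : W.K)) (φ (χ (g : Γ) : W.K)) := ⟨(hχ γ).le, (hχ g).le, hd1⟩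
    have h3 := ((((h2.inv (hχ _) (hχ _)).pow hε M1).pow hε (dg b)).mul
      ((h1.pow hε (2 * M1)) a b)).2.2
    have e1 : Aq v φ ρ (γ ^ (2 * M1)) = Aq v φ ρ γ ^ (2 * M1) := map_pow _ _ _
    have e2 : Aq v φ ρ ((g ^ (2 * M1) : Δ) : Γ) = Aq v φ ρ (g : Γ) ^ (2 * M1) := by
      rw [SubmonoidClass.coe_pow, map_pow]
    rw [e1, e2]
    exact h3
  weil := by
    rintro s ⟨γ, p, hp, hγ, hfr, hs⟩
    choose P hP1 hP2 hP3 hP5 hP4 using hfr
    have hsum : ∑ i : Fin (2 * X.dim + 1), (P i).natDegree ≤ Fintype.card ι := by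
      refine (Finset.sum_le_sum fun (i : Fin (2 * X.dim + 1)) _ => hP2 (i : ℕ)).trans ?_
      rw [← Module.finrank_eq_card_basis v]
      exact sum_finrank_le (W := W) (X := X) (2 * X.dim + 1)
    refine ⟨p, fun i => P i, hp, fun i => hP1 i, hsum, fun i => hP3 i, ?_, ?_⟩
    · refine slopesIn_of (fun i => ?_) (fun i => hP5 i)
      refine le_trans ?_ hsum
      exact Finset.single_le_sum (f := fun i : Fin (2 * X.dim + 1) => (P i).natDegree)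
        (fun _ _ => Nat.zero_le _) (Finset.mem_univ i)
    · intro lam hlam
      have hx : φ (χ γ : W.K) = (p : ℚ_[ℓ]) := by rw [hγ, map_natCast]
      have hB : ∀ a b, (((galData v φ hv (power_restrict h Δ) hθ hlat hθ1 hSSG hss).R s).map
          (algebraMap ℚ_[ℓ] ℂ)) a b = (((p : ℂ))⁻¹ ^ M1) ^ dg b *
          (((Aq v φ ρ γ).map (algebraMap ℚ_[ℓ] ℂ)) ^ (2 * M1)) a b := by
        intro a b
        rw [Matrix.map_apply]
        have e0 : (galData v φ hv (power_restrict h Δ) hθ hlat hθ1 hSSG hss).R s a b =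
          Rq v φ (power_restrict h Δ) θ s a b := rfl
        rw [e0, Rq_res v φ h hv, theta_sq φ hθ hM1 s γ hs, hx, map_mul, map_pow, map_pow, map_inv₀,
          map_natCast, hs]
        congr 1
        have e1 : Aq v φ ρ (γ ^ (2 * M1)) = Aq v φ ρ γ ^ (2 * M1) := map_pow _ _ _
        have e2 := map_pow (algebraMap ℚ_[ℓ] ℂ).mapMatrix (Aq v φ ρ γ) (2 * M1)
        rw [e1]
        exact congrFun (congrFun e2 a) b
      have hA : ∀ a b, dg a ≠ dg b → ((Aq v φ ρ γ).map (algebraMap ℚ_[ℓ] ℂ)) a b = 0 := by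
        intro a b hab
        rw [Matrix.map_apply, Aq_hom v φ h hv γ a b hab, map_zero]
      obtain ⟨b0, y, hy, hy', hy2⟩ := eig_twist hA hB hlam
      have hp0 : (p : ℂ) ≠ 0 := by exact_mod_cast hp.ne_zero
      have hy3 : ((Aq v φ ρ γ).map (algebraMap ℚ_[ℓ] ℂ)) ^ (2 * M1) *ᵥ y =
          (lam * (p : ℂ) ^ (dg b0 * M1)) • y := by
        have h3 := congrArg (fun z => ((p : ℂ) ^ (dg b0 * M1)) • z) hy2
        simp only [smul_smul] at h3
        have h4 : (p : ℂ) ^ (dg b0 * M1) * (((p : ℂ))⁻¹ ^ M1) ^ dg b0 = 1 := by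
          rw [← pow_mul, mul_comm M1, ← mul_pow, mul_inv_cancel₀ hp0, one_pow]
        rw [h4, one_smul] at h3
        rw [h3, mul_comm]
      obtain ⟨α, hα1, hα2⟩ := exists_root hy
        (aeval_kill v φ hv (hP4 (dg b0)) hy') hy3
      have hi : dg b0 < 2 * X.dim + 1 := by
        by_contra hlt
        push Not at hlt
        have h5 := W.gr_eq_bot X (dg b0) (by omega)
        have h6 := hv b0
        rw [h5, Submodule.mem_bot] at h6
        exact v.ne_zero b0 h6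
      exact ⟨⟨dg b0, hi⟩, α, hα1, hα2.symm⟩

end frob

end Pool.Agent.E8helper1.TW
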