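import Pool.Agent.E8helper1.TW.Num
import Pool.Agent.E8helper1.TW.FrobG

/-!
# One power decides in every characteristic: assembly of the geometric part
-/

open CategoryTheory AlgebraicGeometry Filter Topology

open scoped ENNReal

universe u v

namespace Pool.Agent.E8helper1.TW

open Module Matrix
open Pool.Agent.H914 Pool.Agent.H914.VarClass Pool.Agent.H914.VarClass.Obj
  Pool.Agent.H914.WeilCohomology Pool.Agent.H281R3.HT
open Pool.Agent.Y133.Half (Sys PH xp xp_def Ev Adj algSys)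
open Pool.Agent.Y133.Half.Sys (mem_Op)
open Pool.Agent.Y129 (pw pj PowerAction TG tateClasses tateDim cycRank tate_index finrank_TG
  TG_eq_iff)
open Pool.Agent.TH125.Gal (IsGaloisAct Intertwines TateAct)
open Pool.Agent.E8helper1.TX
open Pool.Agent.E8helper56.TY (M5)

set_option linter.unusedSectionVars false

variable {k : Type u} [Field k] {𝒱 : VarClass k} {ops : CycleOps 𝒱}
  {W : WeilCohomology.{u, 0} ops} {X : 𝒱.Obj} {Γ : Type} [Group Γ] {χ : Γ →* W.Kˣ}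
  {ρ : ∀ n, Γ →* (W.H (pw X n) ≃ₐ[W.K] W.H (pw X n))} {θ : Γ →* W.Kˣ}

section core

variable {ℓ : ℕ} [Fact ℓ.Prime] (φ : W.K ≃+* ℚ_[ℓ])
  [Nontrivial (W.H X)]
  {ι : Type} [Fintype ι] [DecidableEq ι] (v : Basis ι W.K (W.H X)) {dg : ι → ℕ}

/-- **The theorem, if the normalized action exists.** -/
theorem core_tateQ [Algebra ℚ_[ℓ] ℂ] (hSSG : S_SSG) (hASM : S_ASMQ2)
    (h : PowerAction W X χ ρ) (hθ : ∀ g, θ g ^ 2 = χ g)
    (hv : ∀ i, v i ∈ W.gr X (dg i))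
    (hlat : ∀ g i j, ‖φ (v.repr (ρ 0 g (v j)) i)‖ ≤ 1)
    (hθ1 : ∀ g, ‖φ ((θ g : W.Kˣ) : W.K)‖ = 1) (hss : SemisimpleH ρ)
    (FD : FrobQ (galData v φ hv h hθ hlat hθ1 hSSG hss) X.dim) :
    (∀ m0 : ℕ, M5 (finrank W.K (W.H X)) X.dim = m0 + 1 →
      TG W X χ ρ (m0 + m0 + 1) ≤ algSpan W (pw X (m0 + m0 + 1)) →
      ∀ n, finrank W.K (TG W X χ ρ (n + n + 1)) ≤
      (2 * finrank W.K (W.H X) * M5 (finrank W.K (W.H X)) X.dim) ^
        (2 * finrank W.K (W.H X) ^ 2) * cycRank ops (pw X (n + n + 1))) ∧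
    ∀ m : ℕ, (finrank W.K (W.H X) : ℝ) ^ 3 * (M5 (finrank W.K (W.H X)) X.dim : ℝ) ^ 2 *
      Real.log (2 * finrank W.K (W.H X) * M5 (finrank W.K (W.H X)) X.dim + 1) ≤ (m + 1 : ℕ) →
      TG W X χ ρ (m + m + 1) ≤ algSpan W (pw X (m + m + 1)) →
      ∀ n, TG W X χ ρ n ≤ algSpan W (pw X n) := by
  have hb : Fintype.card ι = finrank W.K (W.H X) := (Module.finrank_eq_card_basis v).symm
  have hne : Nonempty ι := by
    by_contra hne
    rw [not_nonempty_iff] at hne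
    have h3 : Subsingleton (W.H X) := by
      have h4 := (v.repr.toEquiv.trans Finsupp.equivFunOnFinite).injective
      exact h4.subsingleton
    exact not_subsingleton (W.H X) h3
  rw [← hb]
  letI : Algebra W.K ℂ := ((algebraMap ℚ_[ℓ] ℂ).comp (φ : W.K →+* ℚ_[ℓ])).toAlgebra
  have halg : ∀ x : W.K, algebraMap ℚ_[ℓ] ℂ (φ x) = algebraMap W.K ℂ x := fun x => rfl
  -- the general situation
  have key : TG W X χ ρ 1 ≤ algSpan W (pw X 1) →
      (PotOp (galData v φ hv h hθ hlat hθ1 hSSG hss).R (galData v φ hv h hθ hlat hθ1 hSSG hss).p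
        (M5 (Fintype.card ι) X.dim) ≤
        trφ φ (SK v (algSys W) (M5 (Fintype.card ι) X.dim)) →
        ∀ m, finrank ℚ_[ℓ] (trφ φ (PotOp (R0 v h θ) (p0 v) m)) +
          (2 * Fintype.card ι * M5 (Fintype.card ι) X.dim) ^ (2 * Fintype.card ι ^ 2) *
            finrank ℚ_[ℓ] (rad (trφ φ (SK v (algSys W) m))) ≤
        (2 * Fintype.card ι * M5 (Fintype.card ι) X.dim) ^ (2 * Fintype.card ι ^ 2) *
          finrank ℚ_[ℓ] (trφ φ (SK v (algSys W) m))) ∧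
      (∀ m : ℕ, (Fintype.card ι : ℝ) ^ 3 * (M5 (Fintype.card ι) X.dim : ℝ) ^ 2 *
        Real.log (2 * Fintype.card ι * M5 (Fintype.card ι) X.dim + 1) ≤ m →
        trφ φ (PotOp (R0 v h θ) (p0 v) m) ≤ trφ φ (SK v (algSys W) m) →
        ∀ j, trφ φ (PotOp (R0 v h θ) (p0 v) j) = trφ φ (SK v (algSys W) j)) := by
    intro hT1
    have hp : H914.par (W.isInternal X) ∈ (algSys W).Op X X :=
      op_of_pot h hθ hT1 ⟨⊤, inferInstance, fun g _ => par_nu0 h g⟩ rfl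
    have hPO : ∀ m, PotOp (Rq v φ h θ) (mapφ φ (p0 v)) m = trφ φ (PotOp (R0 v h θ) (p0 v) m) :=
      fun m => PotOp_trφ φ (R0 v h θ) (p0 v) (Rq v φ h θ) (fun g => rfl) m
    have hA := hASM ℓ ι Γ (galData v φ hv h hθ hlat hθ1 hSSG hss) X.dim FD
      (fun m => trφ φ (SK v (algSys W) m)) (psys0 v (algSys W) hv hp)
      (fun m => by
        rw [bcM_trφ φ halg]
        exact SB_eq_bcM v (algSys W) m)
      (fun m => by
        have h1 : PotOp (galData v φ hv h hθ hlat hθ1 hSSG hss).R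
          (galData v φ hv h hθ hlat hθ1 hSSG hss).p m = trφ φ (PotOp (R0 v h θ) (p0 v) m) := hPO m
        rw [h1]
        exact trφ_le φ (SK_le v h hθ m)) hne
    have h2 : ∀ m, PotOp (galData v φ hv h hθ hlat hθ1 hSSG hss).R
      (galData v φ hv h hθ hlat hθ1 hSSG hss).p m = trφ φ (PotOp (R0 v h θ) (p0 v) m) := hPO
    obtain ⟨-, hA1, hA2⟩ := hA
    constructor
    · intro h3 m
      have h4 := hA1 h3 m
      rw [h2] at h4
      exact h4
    · intro m hm hle j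
      have h4 := hA2 m hm (by rw [h2]; exact hle) j
      rw [h2] at h4
      exact h4
  have h2 : ∀ m, PotOp (galData v φ hv h hθ hlat hθ1 hSSG hss).R
      (galData v φ hv h hθ hlat hθ1 hSSG hss).p m = trφ φ (PotOp (R0 v h θ) (p0 v) m) :=
    fun m => PotOp_trφ φ (R0 v h θ) (p0 v) (Rq v φ h θ) (fun g => rfl) m
  constructor
  · intro m0 hm0 hT n
    have hT1 := TG_down h (m := 1) (by omega) hT
    have h3 := (key hT1).1 (by
      rw [h2, hm0]
      exact trφ_le φ ((PotOp_le_iff v h hθ m0).2 hT)) (n + 1)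
    have hp : H914.par (W.isInternal X) ∈ (algSys W).Op X X :=
      op_of_pot h hθ hT1 ⟨⊤, inferInstance, fun g _ => par_nu0 h g⟩ rfl
    rw [rad_trφ, finrank_trφ, finrank_trφ, finrank_trφ, finrank_PotOp v h hθ, finrank_SK] at h3
    have h4 := Nat.mul_le_mul_left
      ((2 * Fintype.card ι * M5 (Fintype.card ι) X.dim) ^ (2 * Fintype.card ι ^ 2))
      (cycRank_add v (W := W) (X := X) n hp)
    rw [mul_add] at h4
    omega
  · intro m hm hT n
    have h3 := (key (TG_down h (by omega) hT)).2 (m + 1) hm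
      (trφ_le φ ((PotOp_le_iff v h hθ m).2 hT)) (n + 1)
    have h4 := le_of_trφ φ h3.le
    exact TG_down h (by omega) ((PotOp_le_iff v h hθ n).1 h4)

end core

/-- The homogeneous basis in which the Galois group acts by integral matrices, and in which the
Frobenius elements are dense. -/
def HasFrobQ {ℓ : ℕ} [Fact ℓ.Prime] (φ : W.K ≃+* ℚ_[ℓ]) (χ : Γ →* W.Kˣ)
    (ρ : ∀ n, Γ →* (W.H (pw X n) ≃ₐ[W.K] W.H (pw X n))) : Prop :=
  ∃ (d : ℕ) (v : Basis (Fin d) W.K (W.H X)), (∀ i, ∃ j, v i ∈ W.gr X j) ∧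
    (∀ g i j, ‖φ (v.repr (ρ 0 g (v j)) i)‖ ≤ 1) ∧ FrobDenseQ v φ χ ρ

variable {ℓ : ℕ} [Fact ℓ.Prime]

/-- The theorem in terms of spaces. -/
theorem main_TGQ (hSSG : S_SSG) (hASM : S_ASMQ2) (hSQ : S_SQRT) (hEMB : S_EMB)
    (φ : W.K ≃+* ℚ_[ℓ])
    [Nontrivial (W.H X)] (h : PowerAction W X χ ρ) (hχ : ∀ g, ‖φ (χ g : W.K)‖ = 1)
    (hlat : HasFrobQ φ χ ρ) (hss : SemisimpleH ρ) :
    (∀ m0 : ℕ, M5 (finrank W.K (W.H X)) X.dim = m0 + 1 →
      TG W X χ ρ (m0 + m0 + 1) ≤ algSpan W (pw X (m0 + m0 + 1)) →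
      ∀ n, finrank W.K (TG W X χ ρ (n + n + 1)) ≤
      (2 * finrank W.K (W.H X) * M5 (finrank W.K (W.H X)) X.dim) ^
        (2 * finrank W.K (W.H X) ^ 2) * cycRank ops (pw X (n + n + 1))) ∧
    ∀ m : ℕ, (finrank W.K (W.H X) : ℝ) ^ 3 * (M5 (finrank W.K (W.H X)) X.dim : ℝ) ^ 2 *
      Real.log (2 * finrank W.K (W.H X) * M5 (finrank W.K (W.H X)) X.dim + 1) ≤ (m + 1 : ℕ) →
      TG W X χ ρ (m + m + 1) ≤ algSpan W (pw X (m + m + 1)) →
      ∀ n, TG W X χ ρ n ≤ algSpan W (pw X n) := by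
  obtain ⟨e⟩ := hEMB ℓ
  letI : Algebra ℚ_[ℓ] ℂ := e.toAlgebra
  obtain ⟨Δ, hΔ, θ', hθ1, hθ2⟩ := hSQ ℓ Γ ((Units.map (φ : W.K →* ℚ_[ℓ])).comp χ) hχ
  let θ : Δ →* W.Kˣ := (Units.map (φ.symm : ℚ_[ℓ] →* W.K)).comp θ'
  have hθ : ∀ g, θ g ^ 2 = (χ.comp Δ.subtype) g := by
    intro g
    apply Units.ext
    have h1 := congrArg (fun u : ℚ_[ℓ]ˣ => φ.symm (u : ℚ_[ℓ])) (hθ1 g)
    simp only [Units.val_pow_eq_pow_val, map_pow] at h1
    change (φ.symm (θ' g : ℚ_[ℓ])) ^ 2 = (χ g : W.K)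
    rw [h1]
    exact φ.symm_apply_apply _
  have hθn : ∀ g, ‖φ ((θ g : W.Kˣ) : W.K)‖ = 1 := by
    intro g
    have h1 : φ ((θ g : W.Kˣ) : W.K) = (θ' g : ℚ_[ℓ]) := φ.apply_symm_apply _
    rw [h1]
    exact hθ2 g
  have h' := power_restrict h Δ
  obtain ⟨d, v, hv, hl, hF⟩ := hlat
  choose dg hv using hv
  obtain ⟨M1, hM0, hM1⟩ := exists_pow_mem Δ hΔ
  have hA := core_tateQ (θ := θ) φ v hSSG hASM h' hθ hv
    (fun g => hl g) hθn (semisimple_restrict Δ hΔ hss)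
    (frobDataQ v φ hv h Δ θ hθ (fun g => hl g) hl hχ hθn hSSG (semisimple_restrict Δ hΔ hss) hF
      hM0 hM1)
  obtain ⟨hA1, hA2⟩ := hA
  refine ⟨fun m0 hm0 hT n => ?_, fun m hm hT n => ?_⟩
  · have h1 := hA1 m0 hm0 (by rw [TG_restrict Δ hΔ]; exact hT) n
    rw [TG_restrict Δ hΔ] at h1
    exact h1
  · have h1 := hA2 m hm (by rw [TG_restrict Δ hΔ]; exact hT) n
    rw [TG_restrict Δ hΔ] at h1
    exact h1

/-- The passage to the index. -/
theorem index_ofQ [Nontrivial (W.H X)] (h : PowerAction W X χ ρ) (C : ℕ)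
    (h2 : ∀ n, finrank W.K (TG W X χ ρ (n + n + 1)) ≤ C * cycRank ops (pw X (n + n + 1))) :
    (∀ n, HomEqNum W (pw X n)) ∧
    (∀ n, tateDim W X χ ρ (2 * n + 1) ≤ C * cycRank ops (pw X (2 * n + 1))) ∧
      ∃ N : ℕ, 1 ≤ N ∧ N ≤ C ∧
        Tendsto (fun n => (tateDim W X χ ρ n : ℝ≥0∞) / cycRank ops (pw X n)) atTop
          (𝓝 (N : ℝ≥0∞)) ∧
        (N = 1 ↔ ∀ n, TateAct χ (W.gr (pw X n)) (algClasses W (pw X n)) (ρ n)) := by
  have hN : ∀ n, HomEqNum W (pw X n) := by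
    obtain ⟨N, -, e2, -, -, e5⟩ := Pool.Agent.Y133.Half.stable_index h.stable h.algSpan_le
    refine e5 ?_
    have hNle : (N : ℝ≥0∞) ≤ (C : ℝ≥0∞) := by
      have hsub : Tendsto (fun n : ℕ => 2 * n + 1) atTop atTop := by
        refine tendsto_atTop_mono (fun n => ?_) tendsto_id
        change n ≤ 2 * n + 1
        omega
      refine le_of_tendsto (e2.comp hsub) (Eventually.of_forall fun n => ?_)
      change (finrank W.K (TG W X χ ρ (2 * n + 1)) : ℝ≥0∞) / cycRank ops (pw X (2 * n + 1)) ≤ _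
      refine ENNReal.div_le_of_le_mul ?_
      have e : n + n + 1 = 2 * n + 1 := by omega
      have h3 := h2 n
      rw [e] at h3
      exact_mod_cast h3
    rintro rfl
    exact absurd hNle (by simp)
  refine ⟨hN, index_of h C hN fun n => ?_⟩
  have h5 : cycRank ops (pw X (n + n + 1)) = finrank W.K (algSpan W (pw X (n + n + 1))) :=
    (Pool.Agent.Y133.Half.homEqNum_iff' (pw X (n + n + 1))).1 (hN _)
  rw [← h5]
  exact h2 n

end Pool.Agent.E8helper1.TW
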