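import Pool.Agent.E8helper1.TW.Stm

/-!
# The abstract theorem: the Casimir operator and the parity
-/

set_option autoImplicit false
set_option linter.unusedSectionVars false

namespace Pool.Agent.E8helper1.TW

open Matrix Module
open scoped ComplexOrder
open Pool.Agent.E8helper1.TX Pool.Agent.E8helper56.TX Pool.Agent.E8helper56.TY

variable {n : Type} [Fintype n] [DecidableEq n] {m : ℕ}

/-- a normal involution is hermitian -/
theorem herm_of_normal {p : Matrix n n ℂ} (hp : p * p = 1) (hn : p * pᴴ = pᴴ * p) : pᴴ = p := by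
  have h1 : pᴴ * pᴴ = 1 := by
    rw [← Matrix.conjTranspose_mul, hp, Matrix.conjTranspose_one]
  obtain ⟨q, hq⟩ : ∃ q : Matrix n n ℂ, q = p * pᴴ := ⟨_, rfl⟩
  have hqq : q * q = 1 := by
    rw [hq]
    calc p * pᴴ * (p * pᴴ) = p * (pᴴ * p) * pᴴ := by simp only [Matrix.mul_assoc]
      _ = p * (p * pᴴ) * pᴴ := by rw [hn]
      _ = (p * p) * (pᴴ * pᴴ) := by simp only [Matrix.mul_assoc]
      _ = 1 := by rw [hp, h1, Matrix.mul_one]
  have hps : q.PosSemidef := by
    rw [hq]
    exact Matrix.posSemidef_self_mul_conjTranspose p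
  -- `q - 1 = 0`
  have h2 : (q - 1) * (q + 1) = 0 := by
    rw [Matrix.mul_add, Matrix.sub_mul, hqq, Matrix.mul_one, Matrix.one_mul]
    abel
  have h3 : (q + 1).PosDef := Matrix.PosDef.posSemidef_add hps Matrix.PosDef.one
  have h4 : q - 1 = 0 := by
    have h5 : IsUnit (q + 1).det := by
      have := h3.det_pos
      exact isUnit_iff_ne_zero.2 (ne_of_gt this)
    calc q - 1 = (q - 1) * ((q + 1) * (q + 1)⁻¹) := by
          rw [Matrix.mul_nonsing_inv _ h5, Matrix.mul_one]
      _ = (q - 1) * (q + 1) * (q + 1)⁻¹ := by rw [Matrix.mul_assoc]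
      _ = 0 := by rw [h2, Matrix.zero_mul]
  have h6 : p * pᴴ = 1 := by rw [← hq]; exact sub_eq_zero.1 h4
  calc pᴴ = (p * p) * pᴴ := by rw [hp, Matrix.one_mul]
    _ = p * (p * pᴴ) := by rw [Matrix.mul_assoc]
    _ = p := by rw [h6, Matrix.mul_one]

theorem tpow_two_l (z : Matrix n n ℂ) (I : Fin 2 → n) (p q : n) : tpow z 2 I ![p, q] =
    z (I 0) p * z (I 1) q := by
  simp [tpow, Fin.prod_univ_two]

theorem tpow_two_r (z : Matrix n n ℂ) (J : Fin 2 → n) (p q : n) : tpow z 2 ![p, q] J =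
    z p (J 0) * z q (J 1) := by
  simp [tpow, Fin.prod_univ_two]

/-- the operator `Om F` and group elements -/
theorem Om_tpow {F : Matrix n n ℂ →ₗ[ℂ] Matrix n n ℂ} {z : Matrix n n ℂ} (hz : z * z = 1)
    (h : ∀ a, F (z * a * z) = z * F a * z) : Om F * tpow z 2 = tpow z 2 * Om F := by
  have key : ∀ a, F (z * a) * z = z * F (a * z) := by
    intro a
    have h1 := h (a * z)
    have h2 : z * (a * z) * z = z * a := by
      rw [← Matrix.mul_assoc, Matrix.mul_assoc, hz, Matrix.mul_one]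
    rw [h2] at h1
    rw [h1, Matrix.mul_assoc, hz, Matrix.mul_one]
  ext I J
  rw [Matrix.mul_apply, Matrix.mul_apply, sum_two, sum_two]
  simp only [tpow_two_l, tpow_two_r, Om_l, Om_r]
  have e1 : ∑ p : n, ∑ q : n, F (Matrix.single q (I 1) 1) (I 0) p * (z p (J 0) * z q (J 1)) =
      (F (z * Matrix.single (J 1) (I 1) 1) * z) (I 0) (J 0) := by
    rw [Matrix.mul_apply, mul_single_sum, map_sum]
    refine Finset.sum_congr rfl fun p _ => ?_
    rw [Matrix.sum_apply, Finset.sum_mul]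
    refine Finset.sum_congr rfl fun q _ => ?_
    rw [map_smul, Matrix.smul_apply, smul_eq_mul]
    ring
  have e2 : ∑ p : n, ∑ q : n, z (I 0) p * z (I 1) q * F (Matrix.single (J 1) q 1) p (J 0) =
      (z * F (Matrix.single (J 1) (I 1) 1 * z)) (I 0) (J 0) := by
    rw [Matrix.mul_apply, single_mul_sum, map_sum]
    refine Finset.sum_congr rfl fun p _ => ?_
    rw [Matrix.sum_apply, Finset.mul_sum]
    refine Finset.sum_congr rfl fun q _ => ?_
    rw [map_smul, Matrix.smul_apply, smul_eq_mul]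
    ring
  rw [e1, e2, key]

/-- **The Casimir argument**, with the parity. -/
theorem cas (T : ∀ m, Submodule ℂ (Op n m)) (hstar : ∀ m, ∀ A ∈ T m, Aᴴ ∈ T m)
    {p : Matrix n n ℂ} (hp : p * p = 1) (hph : pᴴ = p) (hpA : ∀ y ∈ Ann T, y * p = p * y)
    (hT2 : ∀ A : Op n 2, (∀ z ∈ Ann T, A * dpow z 2 = dpow z 2 * A) →
      A * tpow p 2 = tpow p 2 * A → A ∈ T 2)
    (x : Matrix n n ℂ) (hx2 : ∀ A ∈ T 2, A * dpow x 2 = dpow x 2 * A) :
    ∃ y c : Matrix n n ℂ, x = y + c ∧ y ∈ Ann T ∧ ∀ z ∈ Ann T, z * c = c * z := by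
  obtain ⟨P, hP1, hP2⟩ := exists_proj (Ann T)
  -- equivariance
  have heq : ∀ z ∈ Ann T, ∀ a, P (z * a - a * z) = z * P a - P a * z := by
    intro z hz a
    refine proj_unique hP1 hP2 (Ann_lie hz (hP1 a)) fun w hw => ?_
    have h1 : zᴴ * w - w * zᴴ ∈ Ann T := Ann_lie (Ann_star hstar hz) hw
    have h2 := hP2 a _ h1
    rw [Matrix.conjTranspose_sub, Matrix.conjTranspose_mul, Matrix.conjTranspose_mul,
      Matrix.conjTranspose_conjTranspose, Matrix.sub_mul, Matrix.trace_sub] at h2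
    have h3 : (z * wᴴ * (a - P a)).trace = (wᴴ * ((a - P a) * z)).trace := by
      rw [Matrix.mul_assoc, Matrix.trace_mul_comm z, Matrix.mul_assoc]
    have h4 : z * a - a * z - (z * P a - P a * z) = z * (a - P a) - (a - P a) * z := by
      rw [Matrix.mul_sub, Matrix.sub_mul]
      abel
    rw [h4, Matrix.mul_sub, Matrix.trace_sub, ← h3, ← Matrix.mul_assoc]
    exact h2
  have hPid : ∀ a ∈ Ann T, P a = a := fun a ha => proj_unique hP1 hP2 ha fun z _ => by
    rw [sub_self, Matrix.mul_zero, Matrix.trace_zero]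
  have heqp : ∀ a, P (p * a * p) = p * P a * p := by
    intro a
    have h0 : p * P a * p = P a := by
      rw [← hpA _ (hP1 a), Matrix.mul_assoc, hp, Matrix.mul_one]
    rw [h0]
    refine proj_unique hP1 hP2 (hP1 a) fun w hw => ?_
    have h1 : (wᴴ * (p * a * p)).trace = (wᴴ * a).trace := by
      have h2 : pᴴ * wᴴ = wᴴ * pᴴ := by
        rw [← Matrix.conjTranspose_mul, ← Matrix.conjTranspose_mul, hpA w hw]
      rw [hph] at h2
      calc (wᴴ * (p * a * p)).trace = (p * (wᴴ * (p * a))).trace := by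
            rw [Matrix.trace_mul_comm p]
            simp only [Matrix.mul_assoc]
        _ = ((p * wᴴ) * p * a).trace := by simp only [Matrix.mul_assoc]
        _ = (wᴴ * (p * p) * a).trace := by rw [h2]; simp only [Matrix.mul_assoc]
        _ = (wᴴ * a).trace := by rw [hp, Matrix.mul_one]
    rw [Matrix.mul_sub, Matrix.trace_sub, h1, ← Matrix.trace_sub, ← Matrix.mul_sub]
    exact hP2 a w hw
  have hOm : Om P ∈ T 2 := hT2 _ (fun z hz => (Om_comm_iff P z).2 (heq z hz)) (Om_tpow hp heqp)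
  have hxP := (Om_comm_iff P x).1 (hx2 _ hOm)
  have hxnorm : ∀ a ∈ Ann T, x * a - a * x ∈ Ann T := by
    intro a ha
    have h1 := hxP a
    rw [hPid a ha] at h1
    rw [← h1]
    exact hP1 _
  refine ⟨P x, x - P x, by abel, hP1 x, fun z hz => ?_⟩
  have hcz : z * (x - P x) - (x - P x) * z ∈ Ann T := by
    have h1 := (Ann T).neg_mem (hxnorm z hz)
    have h2 := Ann_lie (hP1 x) hz
    have h3 := (Ann T).add_mem h1 h2
    have h4 : -(x * z - z * x) + (P x * z - z * P x) = z * (x - P x) - (x - P x) * z := by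
      rw [Matrix.mul_sub, Matrix.sub_mul]
      abel
    rwa [h4] at h3
  rw [← sub_eq_zero]
  apply eq_zero_of_trace
  set b := z * (x - P x) - (x - P x) * z with hb
  have h5 : zᴴ * b - b * zᴴ ∈ Ann T := Ann_lie (Ann_star hstar hz) hcz
  have h6 := hP2 x _ h5
  have h7 : (bᴴ * b).trace = ((zᴴ * b - b * zᴴ)ᴴ * (x - P x)).trace := by
    have h9 : (zᴴ * b - b * zᴴ)ᴴ = bᴴ * z - z * bᴴ := by
      rw [Matrix.conjTranspose_sub, Matrix.conjTranspose_mul, Matrix.conjTranspose_mul,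
        Matrix.conjTranspose_conjTranspose]
    rw [h9, Matrix.sub_mul, Matrix.trace_sub]
    have h8 : (z * bᴴ * (x - P x)).trace = (bᴴ * ((x - P x) * z)).trace := by
      rw [Matrix.mul_assoc, Matrix.trace_mul_comm z, Matrix.mul_assoc]
    rw [h8]
    conv_lhs => rw [hb]
    rw [Matrix.mul_sub, Matrix.trace_sub, ← hb, ← Matrix.mul_assoc]
  rw [h7, h6]

/-- For a normal operator an element of the range which is in the kernel is zero. -/
theorem ran_ker {N : Type} [Fintype N] [DecidableEq N] {c : Matrix N N ℂ} (hc : c * cᴴ = cᴴ * c)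
    (B B0 : Matrix N N ℂ) (hB : B = c * B0 - B0 * c) (h0 : c * B - B * c = 0) : B = 0 := by
  -- adjoint of `ad c` is `ad cᴴ`; `|ad cᴴ B| = |ad c B| = 0`, so `<B, B> = <ad c B0, B> = 0`
  obtain ⟨e, he⟩ : ∃ e : Matrix N N ℂ, e = cᴴ * B - B * cᴴ := ⟨_, rfl⟩
  have h1 : e = 0 := by
    apply eq_zero_of_trace
    have h2 : eᴴ = Bᴴ * c - c * Bᴴ := by
      rw [he, Matrix.conjTranspose_sub, Matrix.conjTranspose_mul, Matrix.conjTranspose_mul,
        Matrix.conjTranspose_conjTranspose]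
    have h3 : (eᴴ * e).trace = (Bᴴ * (c * e - e * c)).trace := by
      rw [h2, Matrix.sub_mul, Matrix.trace_sub, Matrix.mul_sub, Matrix.trace_sub,
        Matrix.mul_assoc Bᴴ, Matrix.mul_assoc c, Matrix.trace_mul_comm c, Matrix.mul_assoc Bᴴ]
    have h4 : c * e - e * c = cᴴ * (c * B - B * c) - (c * B - B * c) * cᴴ := by
      rw [he]
      simp only [Matrix.mul_sub, Matrix.sub_mul]
      have e1 : c * (cᴴ * B) = cᴴ * (c * B) := by
        rw [← Matrix.mul_assoc, hc, Matrix.mul_assoc]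
      have e2 : B * cᴴ * c = B * c * cᴴ := by
        rw [Matrix.mul_assoc, ← hc, Matrix.mul_assoc]
      have e3 : c * (B * cᴴ) = c * B * cᴴ := by rw [Matrix.mul_assoc]
      have e4 : cᴴ * B * c = cᴴ * (B * c) := by rw [Matrix.mul_assoc]
      rw [e1, e2, e3, e4]
      abel
    rw [h3, h4, h0, Matrix.mul_zero, Matrix.zero_mul, sub_zero, Matrix.mul_zero, Matrix.trace_zero]
  apply eq_zero_of_trace
  have h5 : Bᴴ * B = Bᴴ * (c * B0 - B0 * c) := by rw [← hB]
  have h6 : (Bᴴ * B).trace = (eᴴ * B0).trace := by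
    rw [h5]
    have h2 : eᴴ = Bᴴ * c - c * Bᴴ := by
      rw [he, Matrix.conjTranspose_sub, Matrix.conjTranspose_mul, Matrix.conjTranspose_mul,
        Matrix.conjTranspose_conjTranspose]
    rw [h2, Matrix.sub_mul, Matrix.trace_sub, Matrix.mul_sub, Matrix.trace_sub,
      Matrix.mul_assoc Bᴴ, Matrix.mul_assoc c, Matrix.trace_mul_comm c, Matrix.mul_assoc Bᴴ]
  rw [h6, h1, Matrix.conjTranspose_zero, Matrix.zero_mul, Matrix.trace_zero]

end Pool.Agent.E8helper1.TW
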