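import Pool.Agent.E8helper1.TW.Stm
import Pool.Agent.E8helper26.TX.TRF0

/-!
# The abstract theorem: limits of systems and generated systems
-/

set_option autoImplicit false
set_option linter.unusedSectionVars false

namespace Pool.Agent.E8helper1.TW

open Matrix Module Filter Topology
open Pool.Agent.E8helper1.TX Pool.Agent.E8helper56.TX Pool.Agent.E8helper56.TY

variable {n : Type} [Fintype n] [DecidableEq n] {m : ℕ}

/-- The limits of sequences of elements of systems. -/
def Sg (P : ℕ → PSys0 n) (m : ℕ) : Submodule ℂ (Op n m) where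
  carrier := {A | ∃ B : ℕ → Op n m, (∀ k, B k ∈ (P k).S m) ∧ Tendsto B atTop (𝓝 A)}
  zero_mem' := ⟨fun _ => 0, fun k => ((P k).S m).zero_mem, tendsto_const_nhds⟩
  add_mem' := by
    rintro A A' ⟨B, hB, hBA⟩ ⟨B', hB', hBA'⟩
    exact ⟨fun k => B k + B' k, fun k => ((P k).S m).add_mem (hB k) (hB' k), hBA.add hBA'⟩
  smul_mem' := by
    rintro c A ⟨B, hB, hBA⟩
    exact ⟨fun k => c • B k, fun k => ((P k).S m).smul_mem c (hB k), hBA.const_smul c⟩

theorem continuous_oneT : Continuous (oneT : Op n m → Op n (m + 1)) := by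
  refine continuous_matrix fun I J => ?_
  unfold oneT
  split_ifs with h
  · exact Continuous.matrix_elem continuous_id _ _
  · exact continuous_const

theorem continuous_trL : Continuous (trL : Op n (m + 1) → Op n m) := by
  refine continuous_matrix fun I J => ?_
  unfold trL
  exact continuous_finset_sum _ fun a _ => Continuous.matrix_elem continuous_id _ _

theorem continuous_dpow : Continuous (fun x : Matrix n n ℂ => dpow x m) := by
  refine continuous_matrix fun I J => ?_
  unfold dpow
  refine continuous_finset_sum _ fun a _ => ?_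
  split_ifs with h
  · exact Continuous.matrix_elem continuous_id _ _
  · exact continuous_const

theorem sg_sys (P : ℕ → PSys0 n) : ∃ P' : PSys0 n, ∀ m, P'.S m = Sg P m :=
  ⟨{ S := Sg P
     one_mem := fun m => ⟨fun _ => 1, fun k => (P k).one_mem m, tendsto_const_nhds⟩
     mul_mem := by
      rintro m A A' ⟨B, hB, hBA⟩ ⟨B', hB', hBA'⟩
      exact ⟨fun k => B k * B' k, fun k => (P k).mul_mem (hB k) (hB' k), hBA.mul hBA'⟩
     oneT_mem := by
      rintro m A ⟨B, hB, hBA⟩
      exact ⟨fun k => oneT (B k), fun k => (P k).oneT_mem (hB k),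
        (continuous_oneT.tendsto A).comp hBA⟩
     sw_mem := fun m => ⟨fun _ => _, fun k => (P k).sw_mem m, tendsto_const_nhds⟩
     trL_mem := by
      rintro m A ⟨B, hB, hBA⟩
      exact ⟨fun k => trL (B k), fun k => (P k).trL_mem (hB k),
        (continuous_trL.tendsto A).comp hBA⟩ }, fun _ => rfl⟩

/-- The system generated by operators of one degree. -/
def Gen (m0 : ℕ) (V : Submodule ℂ (Op n m0)) (m : ℕ) : Submodule ℂ (Op n m) where
  carrier := {A | ∀ P : PSys0 n, V ≤ P.S m0 → A ∈ P.S m}
  zero_mem' := fun P _ => (P.S m).zero_mem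
  add_mem' := fun hA hB P hP => (P.S m).add_mem (hA P hP) (hB P hP)
  smul_mem' := fun c _ hA P hP => (P.S m).smul_mem c (hA P hP)

theorem oneT_star (B : Op n m) : (oneT B)ᴴ = oneT Bᴴ := by
  ext I J
  rw [Matrix.conjTranspose_apply]
  unfold oneT
  by_cases h : J 0 = I 0
  · rw [if_pos h, if_pos h.symm]
    rfl
  · rw [if_neg h, if_neg fun h2 => h h2.symm, star_zero]

theorem trL_star (A : Op n (m + 1)) : (trL A)ᴴ = trL Aᴴ := by
  ext I J
  rw [Matrix.conjTranspose_apply]
  unfold trL
  rw [star_sum]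
  rfl

theorem sw_star (m : ℕ) : (perm (Equiv.swap (0 : Fin (m + 2)) 1) : Op n (m + 2))ᴴ =
    perm (Equiv.swap (0 : Fin (m + 2)) 1) := by
  ext I J
  rw [Matrix.conjTranspose_apply]
  unfold perm
  have h : J = I ∘ (Equiv.swap (0 : Fin (m + 2)) 1) ↔ I = J ∘ (Equiv.swap (0 : Fin (m + 2)) 1) := by
    constructor
    · intro h
      rw [h]
      funext i
      simp
    · intro h
      rw [h]
      funext i
      simp
  by_cases h2 : J = I ∘ (Equiv.swap (0 : Fin (m + 2)) 1)
  · rw [if_pos h2, if_pos (h.1 h2), star_one]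
  · rw [if_neg h2, if_neg fun h3 => h2 (h.2 h3), star_zero]

/-- the adjoint system -/
def starS (P : PSys0 n) : PSys0 n where
  S m :=
    { carrier := {A | Aᴴ ∈ P.S m}
      zero_mem' := by
        change (0 : Op n m)ᴴ ∈ P.S m
        rw [Matrix.conjTranspose_zero]
        exact (P.S m).zero_mem
      add_mem' := by
        intro A B hA hB
        change (A + B)ᴴ ∈ P.S m
        rw [Matrix.conjTranspose_add]
        exact (P.S m).add_mem hA hB
      smul_mem' := by
        intro c A hA
        change (c • A)ᴴ ∈ P.S m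
        rw [Matrix.conjTranspose_smul]
        exact (P.S m).smul_mem _ hA }
  one_mem m := by
    change (1 : Op n m)ᴴ ∈ P.S m
    rw [Matrix.conjTranspose_one]
    exact P.one_mem m
  mul_mem := by
    intro m A B hA hB
    change (A * B)ᴴ ∈ P.S m
    rw [Matrix.conjTranspose_mul]
    exact P.mul_mem hB hA
  oneT_mem := by
    intro m B hB
    change (oneT B)ᴴ ∈ P.S (m + 1)
    rw [oneT_star]
    exact P.oneT_mem hB
  sw_mem m := by
    change (perm (Equiv.swap (0 : Fin (m + 2)) 1) : Op n (m + 2))ᴴ ∈ P.S (m + 2)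
    rw [sw_star]
    exact P.sw_mem m
  trL_mem := by
    intro m A hA
    change (trL A)ᴴ ∈ P.S m
    rw [trL_star]
    exact P.trL_mem hA

theorem gen_sys {m0 : ℕ} {V : Submodule ℂ (Op n m0)} (hV : ∀ A ∈ V, Aᴴ ∈ V) :
    ∃ T : TSys n, ∀ m, T.S m = Gen m0 V m := by
  obtain ⟨T, hT⟩ := Pool.Agent.E8helper26.TX.t_PRE n
    { S := Gen m0 V
      one_mem := fun m P _ => P.one_mem m
      mul_mem := fun hA hB P hP => P.mul_mem (hA P hP) (hB P hP)
      star_mem := by
        intro m A hA P hP
        exact hA (starS P) fun B hB => hP (hV B hB)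
      oneT_mem := fun hA P hP => P.oneT_mem (hA P hP)
      sw_mem := fun m P _ => P.sw_mem m
      trL_mem := fun hA P hP => P.trL_mem (hA P hP) }
  exact ⟨T, fun m => congrFun hT m⟩

theorem gen_le {m0 : ℕ} {V : Submodule ℂ (Op n m0)} (P : PSys0 n) (h : V ≤ P.S m0) (m : ℕ) :
    Gen m0 V m ≤ P.S m := fun _ hA => hA P h

theorem le_gen {m0 : ℕ} (V : Submodule ℂ (Op n m0)) : V ≤ Gen m0 V m0 := fun _ hA _ hP => hP hA

end Pool.Agent.E8helper1.TW
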