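import Pool.Agent.E8helper1.TW.Abs1
import Pool.Agent.E8helper1.TW.Abs2

/-!
# The abstract theorem: the limit of the Tate tensors
-/

set_option autoImplicit false
set_option linter.unusedSectionVars false

namespace Pool.Agent.E8helper1.TW

open Matrix Module Filter Topology
open Pool.Agent.E8helper1.TX Pool.Agent.E8helper56.TX Pool.Agent.E8helper56.TY
open Pool.Agent.E8helper41.TX

variable {n : Type} [Fintype n] [DecidableEq n] {m : ℕ}

theorem inv_comm' {g c : Matrix n n ℂ} (hg : IsUnit g.det) (h : g * c = c * g) :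
    g⁻¹ * c = c * g⁻¹ := by
  calc g⁻¹ * c = g⁻¹ * c * (g * g⁻¹) := by rw [Matrix.mul_nonsing_inv _ hg, Matrix.mul_one]
    _ = g⁻¹ * (c * g) * g⁻¹ := by simp only [Matrix.mul_assoc]
    _ = g⁻¹ * (g * c) * g⁻¹ := by rw [h]
    _ = (g⁻¹ * g) * c * g⁻¹ := by simp only [Matrix.mul_assoc]
    _ = c * g⁻¹ := by rw [Matrix.nonsing_inv_mul _ hg, Matrix.one_mul]

theorem inv_conj {g c : Matrix n n ℂ} (hg : IsUnit g.det) (h : g * c = c * g) :
    g⁻¹ * c * g = c := by
  rw [inv_comm' hg h, Matrix.mul_assoc, Matrix.nonsing_inv_mul _ hg, Matrix.mul_one]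

/-- the conjugate of an operator -/
noncomputable def cg (g : Matrix n n ℂ) (A : Op n m) : Op n m := tpow g m * A * tpow g⁻¹ m

theorem cjm_inv {g : Matrix n n ℂ} (hg : IsUnit g.det) (A : Op n m) : cjm g⁻¹ m A = cg g A := by
  change tpow g⁻¹⁻¹ m * A * tpow g⁻¹ m = _
  rw [Matrix.nonsing_inv_nonsing_inv _ hg]
  rfl

theorem cg_dpow {g z : Matrix n n ℂ} (hg : IsUnit g.det) (A : Op n m)
    (hA : A * dpow z m = dpow z m * A) :
    cg g A * dpow (g * z * g⁻¹) m = dpow (g * z * g⁻¹) m * cg g A := by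
  have h1 : tpow g m * dpow z m * tpow g⁻¹ m = dpow (g * z * g⁻¹) m :=
    tpow_dpow _ _ _ (Matrix.mul_nonsing_inv _ hg)
  have h2 : tpow g⁻¹ m * tpow g m = 1 := by
    rw [tpow_mul, Matrix.nonsing_inv_mul _ hg, tpow_one']
  rw [← h1]
  unfold cg
  calc tpow g m * A * tpow g⁻¹ m * (tpow g m * dpow z m * tpow g⁻¹ m)
      = tpow g m * A * (tpow g⁻¹ m * tpow g m) * dpow z m * tpow g⁻¹ m := by
        simp only [Matrix.mul_assoc]
    _ = tpow g m * (A * dpow z m) * tpow g⁻¹ m := by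
        rw [h2, Matrix.mul_one]
        simp only [Matrix.mul_assoc]
    _ = tpow g m * (dpow z m * A) * tpow g⁻¹ m := by rw [hA]
    _ = tpow g m * dpow z m * (tpow g⁻¹ m * tpow g m) * A * tpow g⁻¹ m := by
        rw [h2, Matrix.mul_one]
        simp only [Matrix.mul_assoc]
    _ = _ := by simp only [Matrix.mul_assoc]

theorem cg_dpow' {g z : Matrix n n ℂ} (hg : IsUnit g.det) (hgz : g * z = z * g) (A : Op n m)
    (hA : A * dpow z m = dpow z m * A) : cg g A * dpow z m = dpow z m * cg g A := by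
  have h := cg_dpow hg A hA
  have h1 : g * z * g⁻¹ = z := by
    rw [hgz, Matrix.mul_assoc, Matrix.mul_nonsing_inv _ hg, Matrix.mul_one]
  rwa [h1] at h

theorem cg_tpow {g z : Matrix n n ℂ} (hg : IsUnit g.det) (hgz : g * z = z * g) (A : Op n m)
    (hA : A * tpow z m = tpow z m * A) : cg g A * tpow z m = tpow z m * cg g A := by
  have h1 : tpow g m * tpow z m = tpow z m * tpow g m := by rw [tpow_mul, tpow_mul, hgz]
  have h2 : tpow g⁻¹ m * tpow z m = tpow z m * tpow g⁻¹ m := by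
    rw [tpow_mul, tpow_mul, inv_comm' hg hgz]
  unfold cg
  calc tpow g m * A * tpow g⁻¹ m * tpow z m = tpow g m * A * (tpow g⁻¹ m * tpow z m) := by
        simp only [Matrix.mul_assoc]
    _ = tpow g m * (A * tpow z m) * tpow g⁻¹ m := by
        rw [h2]; simp only [Matrix.mul_assoc]
    _ = (tpow g m * tpow z m) * A * tpow g⁻¹ m := by
        rw [hA]; simp only [Matrix.mul_assoc]
    _ = _ := by rw [h1]; simp only [Matrix.mul_assoc]

theorem dpow_zero' : dpow (0 : Matrix n n ℂ) m = 0 := by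
  ext I J
  simp [dpow]

theorem dpow_commute {y z : Matrix n n ℂ} (h : y * z = z * y) :
    dpow y m * dpow z m = dpow z m * dpow y m := by
  have h1 := dpow_comm (m := m) y z
  rw [h, sub_self, dpow_zero'] at h1
  exact (sub_eq_zero.1 h1.symm)

theorem dpow_tpow_commute {y p : Matrix n n ℂ} (hp : p * p = 1) (h : y * p = p * y) :
    dpow y m * tpow p m = tpow p m * dpow y m := by
  have h1 : tpow p m * dpow y m * tpow p m = dpow y m := by
    rw [tpow_dpow _ _ _ hp, ← h, Matrix.mul_assoc, hp, Matrix.mul_one]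
  have h2 : tpow p m * tpow p m = 1 := by rw [tpow_mul, hp, tpow_one']
  calc dpow y m * tpow p m = (tpow p m * dpow y m * tpow p m) * tpow p m := by rw [h1]
    _ = tpow p m * dpow y m * (tpow p m * tpow p m) := by simp only [Matrix.mul_assoc]
    _ = _ := by rw [h2, Matrix.mul_one]

section main

variable {T : ∀ m, Submodule ℂ (Op n m)} {p : Matrix n n ℂ}

/-- the commutant of the annihilator -/
def CC (T : ∀ m, Submodule ℂ (Op n m)) : Set (Matrix n n ℂ) := {a | o1 a ∈ T 1}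

/-- the centre of the annihilator -/
def ZZ (T : ∀ m, Submodule ℂ (Op n m)) : Set (Matrix n n ℂ) := {z | z ∈ Ann T ∧ o1 z ∈ T 1}

theorem ann_comm {x : Matrix n n ℂ} (hx : x ∈ Ann T) : ∀ c ∈ CC T, x * c = c * x := by
  intro c hc
  exact ((o1_comm c x).1 (hx 1 _ hc)).symm

theorem brk_le : brk (Ann T) ≤ Ann T := by
  refine Submodule.span_le.2 ?_
  rintro y ⟨u, hu, v, hv, rfl⟩
  exact Ann_lie hu hv

theorem mem_CC_of (hT : TD T p) {c : Matrix n n ℂ} (h1 : ∀ x ∈ Ann T, c * x = x * c)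
    (h2 : c * p = p * c) : c ∈ CC T := by
  refine hT.L2 1 _ (fun x hx => (o1_comm c x).2 (h1 x hx)) ?_
  rw [tpow_one1, o1_mul, o1_mul, h2]

theorem comm_p (hT : TD T p) : ∀ c ∈ CC T, c * p = p * c := by
  intro c hc
  have h1 := hT.p_fix 1 _ hc
  rw [tpow_one1, o1_mul, o1_mul] at h1
  exact o1_inj h1

theorem p_herm (hT : TD T p) : pᴴ = p :=
  herm_of_normal hT.p_mul (comm_p hT _ (hT.star _ hT.p_mem)).symm

theorem T_eq (hT : TD T p)
    (hdec : ∀ x ∈ Ann T, ∃ u ∈ brk (Ann T), ∃ z ∈ Ann T, o1 z ∈ T 1 ∧ x = u + z)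
    {X : Set (Matrix n n ℂ)} (hX : Submodule.span ℂ X = brk (Ann T)) (m : ℕ) :
    T m = CF (ZZ T) p m ⊓ CL X m := by
  apply le_antisymm
  · intro A hA
    refine ⟨⟨fun z hz => hz.1 m A hA, hT.p_fix m A hA⟩, fun x hx => ?_⟩
    exact brk_le (hX ▸ Submodule.subset_span hx : x ∈ brk (Ann T)) m A hA
  · rintro A ⟨⟨h1, h2⟩, h3⟩
    refine hT.L2 m A (fun x hx => ?_) h2
    obtain ⟨u, hu, z, hz, hz1, rfl⟩ := hdec x hx
    have h4 : A * dpow u m = dpow u m * A := by
      have h5 : u ∈ Submodule.span ℂ X := hX ▸ hu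
      refine Submodule.span_induction (p := fun y _ => A * dpow y m = dpow y m * A)
        (fun y hy => h3 y hy) ?_ ?_ ?_ h5
      · rw [dpow_zero', Matrix.mul_zero, Matrix.zero_mul]
      · intro y y' _ _ h h'
        rw [Pool.Agent.E8helper56.TX.dpow_add, mul_add, add_mul, h, h']
      · intro c y _ h
        rw [Pool.Agent.E8helper56.TX.dpow_smul, Matrix.mul_smul, Matrix.smul_mul, h]
    rw [Pool.Agent.E8helper56.TX.dpow_add, mul_add, add_mul, h4, h1 z ⟨hz, hz1⟩]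

theorem CF_union (L X : Set (Matrix n n ℂ)) (p : Matrix n n ℂ) (m : ℕ) :
    CF (L ∪ X) p m = CF L p m ⊓ CL X m := by
  apply le_antisymm
  · rintro A ⟨h1, h2⟩
    exact ⟨⟨fun x hx => h1 x (Or.inl hx), h2⟩, fun x hx => h1 x (Or.inr hx)⟩
  · rintro A ⟨⟨h1, h2⟩, h3⟩
    refine ⟨?_, h2⟩
    rintro x (hx | hx)
    · exact h1 x hx
    · exact h3 x hx

variable {d : ℕ} {x : Fin d → Matrix n n ℂ}

theorem u_comm (hx : ∀ i, ∀ c ∈ CC T, x i * c = c * x i) (D : LimD (CC T) d x) (i : Fin d) :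
    ∀ c ∈ CC T, D.u i * c = c * D.u i := by
  intro c hc
  have h1 : Tendsto (fun k => (∑ j, D.a k i j • (D.g k * x j * (D.g k)⁻¹)) * c) atTop
      (𝓝 (D.u i * c)) := (D.lim i).mul tendsto_const_nhds
  have h2 : Tendsto (fun k => c * (∑ j, D.a k i j • (D.g k * x j * (D.g k)⁻¹))) atTop
      (𝓝 (c * D.u i)) := tendsto_const_nhds.mul (D.lim i)
  refine tendsto_nhds_unique h1 (h2.congr fun k => ?_)
  rw [Finset.mul_sum, Finset.sum_mul]
  refine Finset.sum_congr rfl fun j _ => ?_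
  rw [Matrix.mul_smul, Matrix.smul_mul]
  congr 1
  calc c * (D.g k * x j * (D.g k)⁻¹) = (c * D.g k) * x j * (D.g k)⁻¹ := by
        simp only [Matrix.mul_assoc]
    _ = D.g k * (c * x j) * (D.g k)⁻¹ := by
        rw [← D.g_comm k c hc]; simp only [Matrix.mul_assoc]
    _ = D.g k * x j * (c * (D.g k)⁻¹) := by
        rw [← hx j c hc]; simp only [Matrix.mul_assoc]
    _ = _ := by
        rw [← inv_comm' (D.g_unit k) (D.g_comm k c hc)]; simp only [Matrix.mul_assoc]

/-- The limit of the Tate tensors. -/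
def TL' (T : ∀ m, Submodule ℂ (Op n m)) (p : Matrix n n ℂ) (u : Fin d → Matrix n n ℂ) (m : ℕ) :
    Submodule ℂ (Op n m) := CF (ZZ T ∪ Set.range u) p m

theorem dim_eq (hDIM : S_DIM) (hT : TD T p)
    (hdec : ∀ x ∈ Ann T, ∃ u ∈ brk (Ann T), ∃ z ∈ Ann T, o1 z ∈ T 1 ∧ x = u + z)
    (hX : Submodule.span ℂ (Set.range x) = brk (Ann T)) (hli : LinearIndependent ℂ x)
    (hss : IsSS (brk (Ann T))) (D : LimD (CC T) d x) (m : ℕ) :
    finrank ℂ (T m) = finrank ℂ (TL' T p D.u m) := by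
  have hx : ∀ i, ∀ c ∈ CC T, x i * c = c * x i := fun i =>
    ann_comm (brk_le (hX ▸ Submodule.subset_span ⟨i, rfl⟩ : x i ∈ brk (Ann T)))
  rw [T_eq hT hdec hX m, TL', CF_union]
  refine hDIM n (CC T) d x hx hli (hX ▸ hss) D m _ ?_ ?_
  · rintro y hy A ⟨h1, h2⟩
    refine ⟨fun z hz => ?_, ?_⟩
    · have h3 : dpow y m * dpow z m = dpow z m * dpow y m := dpow_commute (hy z hz.2)
      rw [Matrix.sub_mul, Matrix.mul_sub]
      congr 1
      · rw [Matrix.mul_assoc, h1 z hz, ← Matrix.mul_assoc, h3, Matrix.mul_assoc]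
      · rw [Matrix.mul_assoc, h3, ← Matrix.mul_assoc, h1 z hz, Matrix.mul_assoc]
    · have h3 : dpow y m * tpow p m = tpow p m * dpow y m :=
        dpow_tpow_commute hT.p_mul (hy p hT.p_mem)
      rw [Matrix.sub_mul, Matrix.mul_sub]
      congr 1
      · rw [Matrix.mul_assoc, h2, ← Matrix.mul_assoc, h3, Matrix.mul_assoc]
      · rw [Matrix.mul_assoc, h3, ← Matrix.mul_assoc, h2, Matrix.mul_assoc]
  · rintro g hg hgC A ⟨h1, h2⟩
    exact ⟨fun z hz => cg_dpow' hg (hgC z hz.2) A (h1 z hz), cg_tpow hg (hgC p hT.p_mem) A h2⟩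

/-- limits of conjugates of Tate tensors -/
theorem lim_mem (hT : TD T p) (hX : Submodule.span ℂ (Set.range x) = brk (Ann T))
    (D : LimD (CC T) d x) (φ : ℕ → ℕ) (hφ : StrictMono φ) (A : ℕ → Op n m)
    (hA : ∀ k, A k ∈ (T m).map (cjm (D.g (φ k))⁻¹ m)) (a : Op n m)
    (ha : Tendsto A atTop (𝓝 a)) : a ∈ TL' T p D.u m := by
  have key : ∀ (b : Op n m) (B : ℕ → Op n m), Tendsto B atTop (𝓝 b) →
      (∀ k, A k * B k = B k * A k) → a * b = b * a := by
    intro b B hB h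
    refine tendsto_nhds_unique (ha.mul hB) ((hB.mul ha).congr fun k => (h k).symm)
  refine ⟨?_, key _ (fun _ => tpow p m) tendsto_const_nhds fun k => ?_⟩
  · rintro z (hz | ⟨i, rfl⟩)
    · refine key _ (fun _ => dpow z m) tendsto_const_nhds fun k => ?_
      obtain ⟨B, hB, hBA⟩ := hA k
      rw [← hBA, cjm_inv (D.g_unit _)]
      exact cg_dpow' (D.g_unit _) (D.g_comm _ z hz.2) B (hz.1 m B hB)
    · have h1 : Tendsto (fun k => dpow (∑ j, D.a (φ k) i j •
          (D.g (φ k) * x j * (D.g (φ k))⁻¹)) m) atTop (𝓝 (dpow (D.u i) m)) :=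
        ((continuous_dpow (m := m)).tendsto _).comp ((D.lim i).comp hφ.tendsto_atTop)
      refine key _ _ h1 fun k => ?_
      obtain ⟨B, hB, hBA⟩ := hA k
      rw [← hBA, cjm_inv (D.g_unit _)]
      have h2 : dpow (∑ j, D.a (φ k) i j • (D.g (φ k) * x j * (D.g (φ k))⁻¹)) m =
          ∑ j, D.a (φ k) i j • dpow (D.g (φ k) * x j * (D.g (φ k))⁻¹) m := by
        classical
        refine Finset.induction_on (Finset.univ : Finset (Fin d)) ?_ ?_
        · rw [Finset.sum_empty, Finset.sum_empty, dpow_zero']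
        · intro j s hj ih
          rw [Finset.sum_insert hj, Finset.sum_insert hj, Pool.Agent.E8helper56.TX.dpow_add, Pool.Agent.E8helper56.TX.dpow_smul, ih]
      rw [h2, Finset.mul_sum, Finset.sum_mul]
      refine Finset.sum_congr rfl fun j _ => ?_
      rw [Matrix.mul_smul, Matrix.smul_mul]
      congr 1
      exact cg_dpow (D.g_unit _) B (brk_le (hX ▸ Submodule.subset_span ⟨j, rfl⟩ :
        x j ∈ brk (Ann T)) m B hB)
  · obtain ⟨B, hB, hBA⟩ := hA k
    rw [← hBA, cjm_inv (D.g_unit _)]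
    exact cg_tpow (D.g_unit _) (D.g_comm _ p hT.p_mem) B (hT.p_fix m B hB)

/-- the limit is closed under adjoints -/
theorem TL'_star (hT : TD T p) (hzs : ∀ z ∈ Ann T, o1 z ∈ T 1 → zᴴ ∈ Ann T)
    (D : LimD (CC T) d x) (m : ℕ) : ∀ A ∈ TL' T p D.u m, Aᴴ ∈ TL' T p D.u m := by
  rintro A ⟨h1, h2⟩
  have hsp : ∀ y ∈ Submodule.span ℂ (Set.range D.u), A * dpow y m = dpow y m * A := by
    intro y hy
    refine Submodule.span_induction (p := fun y _ => A * dpow y m = dpow y m * A)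
      (fun y hy => h1 y (Or.inr hy)) ?_ ?_ ?_ hy
    · rw [dpow_zero', Matrix.mul_zero, Matrix.zero_mul]
    · intro y y' _ _ h h'
      rw [Pool.Agent.E8helper56.TX.dpow_add, mul_add, add_mul, h, h']
    · intro c y _ h
      rw [Pool.Agent.E8helper56.TX.dpow_smul, Matrix.mul_smul, Matrix.smul_mul, h]
  have hst : ∀ y : Matrix n n ℂ, A * dpow yᴴ m = dpow yᴴ m * A →
      Aᴴ * dpow y m = dpow y m * Aᴴ := by
    intro y hy
    have h3 := congrArg Matrix.conjTranspose hy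
    rw [Matrix.conjTranspose_mul, Matrix.conjTranspose_mul, ← dpow_star,
      Matrix.conjTranspose_conjTranspose] at h3
    exact h3.symm
  refine ⟨?_, ?_⟩
  · rintro z (hz | ⟨i, rfl⟩)
    · exact hst z (h1 _ (Or.inl ⟨hzs z hz.1 hz.2, hT.star z hz.2⟩))
    · exact hst _ (hsp _ (D.star i))
  · have h3 := congrArg Matrix.conjTranspose h2
    have h4 : (tpow p m)ᴴ = tpow p m := by
      rw [Pool.Agent.E8helper26.TX.tpow_conjTranspose, p_herm hT]
    rw [Matrix.conjTranspose_mul, Matrix.conjTranspose_mul, h4] at h3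
    exact h3.symm

end main

end Pool.Agent.E8helper1.TW
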