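import Pool.Agent.E8helper1.TW.Abs3

/-!
# The abstract theorem: what commutes with the limit of the tensors of bounded degree
-/

set_option autoImplicit false
set_option linter.unusedSectionVars false

namespace Pool.Agent.E8helper1.TW

open Matrix Module Filter Topology
open Pool.Agent.E8helper1.TX Pool.Agent.E8helper56.TX Pool.Agent.E8helper56.TY
open Pool.Agent.E8helper41.TX

variable {n : Type} [Fintype n] [DecidableEq n] {m : ℕ}

theorem CF_tens {L : Set (Matrix n n ℂ)} {p : Matrix n n ℂ} {k j : ℕ} {A : Op n k}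
    (hA : A ∈ CF L p k) : tens A (1 : Op n j) ∈ CF L p (k + j) := by
  refine ⟨fun x hx => ?_, ?_⟩
  · have h := hA.1 x hx
    rw [← sub_eq_zero, comm_tens, sub_eq_zero.2 h]
    ext I J
    simp [tens]
  · rw [tpow_add_deg, tens_mul', tens_mul', hA.2, Matrix.one_mul, Matrix.mul_one]

variable {T : ∀ m, Submodule ℂ (Op n m)} {p : Matrix n n ℂ} {d : ℕ} {x : Fin d → Matrix n n ℂ}

theorem cg_sub (g : Matrix n n ℂ) (A B : Op n m) : cg g (A - B) = cg g A - cg g B := by
  unfold cg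
  rw [Matrix.mul_sub, Matrix.sub_mul]

theorem cg_mul_dpow {g c : Matrix n n ℂ} (hg : IsUnit g.det) (hgc : g * c = c * g) (A : Op n m) :
    cg g (dpow c m * A) = dpow c m * cg g A ∧ cg g (A * dpow c m) = cg g A * dpow c m := by
  have h1 : tpow g m * dpow c m = dpow c m * tpow g m := by
    have h2 : tpow g m * dpow c m * tpow g⁻¹ m = dpow c m := by
      rw [tpow_dpow _ _ _ (Matrix.mul_nonsing_inv _ hg), hgc, Matrix.mul_assoc,
        Matrix.mul_nonsing_inv _ hg, Matrix.mul_one]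
    have h3 : tpow g⁻¹ m * tpow g m = 1 := by
      rw [tpow_mul, Matrix.nonsing_inv_mul _ hg, tpow_one']
    calc tpow g m * dpow c m = tpow g m * dpow c m * (tpow g⁻¹ m * tpow g m) := by
          rw [h3, Matrix.mul_one]
      _ = (tpow g m * dpow c m * tpow g⁻¹ m) * tpow g m := by simp only [Matrix.mul_assoc]
      _ = _ := by rw [h2]
  have h4 : dpow c m * tpow g⁻¹ m = tpow g⁻¹ m * dpow c m := by
    have h3 : tpow g⁻¹ m * tpow g m = 1 := by
      rw [tpow_mul, Matrix.nonsing_inv_mul _ hg, tpow_one']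
    have h3' : tpow g m * tpow g⁻¹ m = 1 := by
      rw [tpow_mul, Matrix.mul_nonsing_inv _ hg, tpow_one']
    calc dpow c m * tpow g⁻¹ m = (tpow g⁻¹ m * tpow g m) * dpow c m * tpow g⁻¹ m := by
          rw [h3, Matrix.one_mul]
      _ = tpow g⁻¹ m * (tpow g m * dpow c m) * tpow g⁻¹ m := by simp only [Matrix.mul_assoc]
      _ = tpow g⁻¹ m * dpow c m * (tpow g m * tpow g⁻¹ m) := by
          rw [h1]; simp only [Matrix.mul_assoc]
      _ = _ := by rw [h3', Matrix.mul_one]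
  unfold cg
  refine ⟨?_, ?_⟩
  · calc tpow g m * (dpow c m * A) * tpow g⁻¹ m = (tpow g m * dpow c m) * A * tpow g⁻¹ m := by
          simp only [Matrix.mul_assoc]
      _ = _ := by rw [h1]; simp only [Matrix.mul_assoc]
  · calc tpow g m * (A * dpow c m) * tpow g⁻¹ m = tpow g m * A * (dpow c m * tpow g⁻¹ m) := by
          simp only [Matrix.mul_assoc]
      _ = _ := by rw [h4]; simp only [Matrix.mul_assoc]

theorem cg_zero_iff {g : Matrix n n ℂ} (hg : IsUnit g.det) {A : Op n m} (h : cg g A = 0) :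
    A = 0 := by
  have h1 : cjm g⁻¹ m A = cjm g⁻¹ m 0 := by rw [cjm_inv hg, h, map_zero]
  exact cjm_inj (P := g⁻¹) (by
    rw [Matrix.isUnit_nonsing_inv_det_iff]
    exact hg) h1

attribute [local instance] Matrix.normedAddCommGroup Matrix.normedSpace in
/-- what commutes with the limits commutes with the tensors -/
theorem back_comm (hT : TD T p) (hX : Submodule.span ℂ (Set.range x) = brk (Ann T))
    (D : LimD (CC T) d x) {c : Matrix n n ℂ} (hcC : c ∈ CC T) (hn : c * cᴴ = cᴴ * c)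
    (hc : ∀ A ∈ TL' T p D.u m, A * dpow c m = dpow c m * A) :
    ∀ A ∈ T m, A * dpow c m = dpow c m * A := by
  intro A hA
  by_contra hne
  set E : Op n m := dpow c m * A - A * dpow c m with hE
  have hE0 : E ≠ 0 := fun h => hne (sub_eq_zero.1 h).symm
  have hET : E ∈ T m := by
    refine hT.L2 m E (fun y hy => ?_) ?_
    · have h1 := hy m A hA
      have h2 : dpow c m * dpow y m = dpow y m * dpow c m :=
        dpow_commute (ann_comm hy c hcC).symm
      rw [hE, Matrix.sub_mul, Matrix.mul_sub]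
      congr 1
      · rw [Matrix.mul_assoc, h1, ← Matrix.mul_assoc, h2, Matrix.mul_assoc]
      · rw [Matrix.mul_assoc, h2, ← Matrix.mul_assoc, h1, Matrix.mul_assoc]
    · have h1 := hT.p_fix m A hA
      have h2 : dpow c m * tpow p m = tpow p m * dpow c m :=
        dpow_tpow_commute hT.p_mul (comm_p hT c hcC)
      rw [hE, Matrix.sub_mul, Matrix.mul_sub]
      congr 1
      · rw [Matrix.mul_assoc, h1, ← Matrix.mul_assoc, h2, Matrix.mul_assoc]
      · rw [Matrix.mul_assoc, h2, ← Matrix.mul_assoc, h1, Matrix.mul_assoc]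
  -- the normalized conjugates
  have hEk : ∀ k, cg (D.g k) E ≠ 0 := fun k h => hE0 (cg_zero_iff (D.g_unit k) h)
  let B : ℕ → Op n m := fun k => ((‖cg (D.g k) E‖⁻¹ : ℝ) : ℂ) • cg (D.g k) E
  have hB1 : ∀ k, ‖B k‖ = 1 := by
    intro k
    have h1 : ‖cg (D.g k) E‖ ≠ 0 := norm_ne_zero_iff.2 (hEk k)
    change ‖((‖cg (D.g k) E‖⁻¹ : ℝ) : ℂ) • cg (D.g k) E‖ = 1
    rw [norm_smul, Complex.norm_real, norm_inv, norm_norm, inv_mul_cancel₀ h1]
  haveI : FirstCountableTopology (Op n m) :=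
    inferInstanceAs (FirstCountableTopology ((Fin m → n) → (Fin m → n) → ℂ))
  haveI : ProperSpace (Op n m) :=
    inferInstanceAs (ProperSpace ((Fin m → n) → (Fin m → n) → ℂ))
  have hcomp : IsCompact (Metric.sphere (0 : Op n m) 1) := isCompact_sphere _ _
  obtain ⟨b, hb, φ, hφ, hlim⟩ := hcomp.tendsto_subseq (x := B) fun k => by
    rw [mem_sphere_zero_iff_norm, hB1]
  have hb1 : ‖b‖ = 1 := by rwa [mem_sphere_zero_iff_norm] at hb
  have hbT : b ∈ TL' T p D.u m := by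
    refine lim_mem hT hX D φ hφ (B ∘ φ) (fun k => ?_) b hlim
    refine ⟨((‖cg (D.g (φ k)) E‖⁻¹ : ℝ) : ℂ) • E, (T m).smul_mem _ hET, ?_⟩
    rw [map_smul, cjm_inv (D.g_unit _)]
    rfl
  -- the range of `ad c`
  let ad : Op n m →ₗ[ℂ] Op n m :=
    { toFun := fun X => dpow c m * X - X * dpow c m
      map_add' := fun X Y => by rw [mul_add, add_mul]; abel
      map_smul' := fun r X => by
        rw [Matrix.mul_smul, Matrix.smul_mul, RingHom.id_apply, smul_sub] }
  have hbR : b ∈ LinearMap.range ad := by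
    have hcl : IsClosed ((LinearMap.range ad : Submodule ℂ (Op n m)) : Set (Op n m)) :=
      Submodule.closed_of_finiteDimensional _
    refine hcl.mem_of_tendsto hlim (Filter.Eventually.of_forall fun k => ?_)
    refine (LinearMap.range ad).smul_mem _ ⟨cg (D.g (φ k)) A, ?_⟩
    have h1 := cg_mul_dpow (D.g_unit (φ k)) (D.g_comm (φ k) c hcC) A
    change dpow c m * cg (D.g (φ k)) A - cg (D.g (φ k)) A * dpow c m = _
    rw [hE, cg_sub, h1.1, h1.2]
  obtain ⟨b0, hb0⟩ := hbR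
  have hn' : dpow c m * (dpow c m)ᴴ = (dpow c m)ᴴ * dpow c m := by
    rw [← dpow_star]
    exact dpow_commute hn
  have h0 := ran_ker hn' b b0 hb0.symm (by rw [hc b hbT, sub_self])
  rw [h0, norm_zero] at hb1
  exact zero_ne_one hb1

theorem T1_eq (hT : TD T p) (hX : Submodule.span ℂ (Set.range x) = brk (Ann T))
    (D : LimD (CC T) d x) (hdim : finrank ℂ (T 1) = finrank ℂ (TL' T p D.u 1)) :
    T 1 = TL' T p D.u 1 := by
  have hx : ∀ i, ∀ c ∈ CC T, x i * c = c * x i := fun i =>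
    ann_comm (brk_le (hX ▸ Submodule.subset_span ⟨i, rfl⟩ : x i ∈ brk (Ann T)))
  refine Submodule.eq_of_le_of_finrank_eq ?_ hdim
  intro A hA
  obtain ⟨a, rfl⟩ : ∃ a, A = o1 a := ⟨fun i j => A (fun _ => i) (fun _ => j), by
    ext I J
    have h1 : (fun _ => I 0) = I := funext fun i => by rw [Subsingleton.elim i 0]
    have h2 : (fun _ => J 0) = J := funext fun i => by rw [Subsingleton.elim i 0]
    change A I J = A (fun _ => I 0) (fun _ => J 0)
    rw [h1, h2]⟩
  refine ⟨?_, hT.p_fix 1 _ hA⟩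
  rintro z (hz | ⟨i, rfl⟩)
  · exact hz.1 1 _ hA
  · exact (o1_comm a _).2 (u_comm hx D i a hA).symm

/-- **What commutes with the limit tensors of degree `M0` commutes with all.** -/
theorem kill' [Nonempty n] (hT : TD T p) (hzs : ∀ z ∈ Ann T, o1 z ∈ T 1 → zᴴ ∈ Ann T)
    (hX : Submodule.span ℂ (Set.range x) = brk (Ann T))
    (D : LimD (CC T) d x) (hdim : finrank ℂ (T 1) = finrank ℂ (TL' T p D.u 1)) {M0 : ℕ}
    (hM : 2 ≤ M0)
    (hkill : ∀ y : Matrix n n ℂ, (∀ A ∈ T M0, A * dpow y M0 = dpow y M0 * A) → y ∈ Ann T)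
    (y : Matrix n n ℂ) (hy : ∀ A ∈ TL' T p D.u M0, A * dpow y M0 = dpow y M0 * A) :
    y ∈ Ann (TL' T p D.u) := by
  have hT1 := T1_eq hT hX D hdim
  have hlow : ∀ k ≤ M0, ∀ A ∈ TL' T p D.u k, A * dpow y k = dpow y k * A := by
    intro k hk A hA
    obtain ⟨j, rfl⟩ := Nat.exists_eq_add_of_le hk
    exact comm_down (hy _ (CF_tens hA))
  have hpC : o1 p ∈ TL' T p D.u 1 := hT1 ▸ hT.p_mem
  have hpA : ∀ y ∈ Ann (TL' T p D.u), y * p = p * y := fun z hz =>
    ((o1_comm p z).1 (hz 1 _ hpC)).symm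
  have huA : ∀ i, D.u i ∈ Ann (TL' T p D.u) := fun i k A hA => hA.1 _ (Or.inr ⟨i, rfl⟩)
  have hzA : ∀ z ∈ ZZ T, z ∈ Ann (TL' T p D.u) := fun z hz k A hA => hA.1 _ (Or.inl hz)
  obtain ⟨y', c, hyc, hy', hcA⟩ := cas (TL' T p D.u) (TL'_star hT hzs D) hT.p_mul (p_herm hT) hpA
    (fun A h1 h2 => ⟨fun z hz => by
      rcases hz with hz | ⟨i, rfl⟩
      · exact h1 z (hzA z hz)
      · exact h1 _ (huA i), h2⟩) y (hlow 2 hM)
  have hc_eq : c = y - y' := by rw [hyc]; abel
  have hcC : ∀ a ∈ CC T, c * a = a * c := by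
    intro a ha
    have ha' : o1 a ∈ TL' T p D.u 1 := hT1 ▸ ha
    have h1 := (o1_comm a y).1 (hlow 1 (by omega) _ ha')
    have h2 := (o1_comm a y').1 (hy' 1 _ ha')
    rw [hc_eq, Matrix.sub_mul, Matrix.mul_sub, h1, h2]
  have hcT : c ∈ CC T := by
    change o1 c ∈ T 1
    rw [hT1]
    refine ⟨?_, ?_⟩
    · rintro z (hz | ⟨i, rfl⟩)
      · exact (o1_comm c z).2 (hcA z (hzA z hz)).symm
      · exact (o1_comm c _).2 (hcA _ (huA i)).symm
    · rw [tpow_one1, o1_mul, o1_mul, hcC p hT.p_mem]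
  have hn : c * cᴴ = cᴴ * c := hcC _ (hT.star c hcT)
  have hcM : ∀ A ∈ TL' T p D.u M0, A * dpow c M0 = dpow c M0 * A := by
    intro A hA
    have h1 := hy A hA
    have h2 := hy' M0 A hA
    rw [hyc, Pool.Agent.E8helper56.TX.dpow_add, mul_add, add_mul, h2] at h1
    exact add_left_cancel h1
  have hcAnn : c ∈ Ann T := hkill c (back_comm hT hX D hcT hn hcM)
  rw [hyc]
  exact (Ann (TL' T p D.u)).add_mem hy' (hzA c ⟨hcAnn, hcT⟩)

/-- the double commutant -/
theorem dcomm (hT : TD T p) (hzs : ∀ z ∈ Ann T, o1 z ∈ T 1 → zᴴ ∈ Ann T)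
    (D : LimD (CC T) d x) (S : ∀ m, Submodule ℂ (Op n m)) (hS : ∀ m, S m ≤ TL' T p D.u m)
    (m : ℕ) (A : Op n m)
    (hA : ∀ g ∈ Matrix.unitaryGroup n ℂ, Fixes S g → Fixes (TL' T p D.u) g →
      A * tpow g m = tpow g m * A) : A ∈ TL' T p D.u m := by
  have hpu : p ∈ Matrix.unitaryGroup n ℂ := by
    rw [Matrix.mem_unitaryGroup_iff, Matrix.star_eq_conjTranspose, p_herm hT, hT.p_mul]
  have hfp : Fixes (TL' T p D.u) p := fun k B hB => hB.2
  have hall : ∀ y ∈ Ann (TL' T p D.u), A * dpow y m = dpow y m * A := by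
    intro y hy
    refine skew_all A (fun z => z ∈ Ann (TL' T p D.u)) (fun z z' a b hz hz' =>
      (Ann (TL' T p D.u)).add_mem ((Ann (TL' T p D.u)).smul_mem a hz)
        ((Ann (TL' T p D.u)).smul_mem b hz')) (fun z hz => Ann_star (TL'_star hT hzs D) hz)
      (fun z hz hzA => ?_) y hy
    obtain ⟨g, hgu, hg1, hg2⟩ := exp_lemma z hz m
    exact hg2 A (hA g hgu (fun i B hB => hg1 i B (hzA i B (hS i hB)))
      (fun i B hB => hg1 i B (hzA i B hB)))
  refine ⟨?_, hA p hpu (fun i B hB => hfp i B (hS i hB)) hfp⟩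
  rintro z (hz | ⟨i, rfl⟩)
  · exact hall z fun k B hB => hB.1 _ (Or.inl hz)
  · exact hall _ fun k B hB => hB.1 _ (Or.inr ⟨i, rfl⟩)

end Pool.Agent.E8helper1.TW
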