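import Pool.Agent.E8helper1.TW.Abs4

/-!
# The abstract theorem
-/

set_option autoImplicit false
set_option linter.unusedSectionVars false

namespace Pool.Agent.E8helper1.TW

open Matrix Module Filter Topology
open Pool.Agent.E8helper1.TX Pool.Agent.E8helper56.TX Pool.Agent.E8helper56.TY
open Pool.Agent.E8helper41.TX

variable {n : Type} [Fintype n] [DecidableEq n] {m : ℕ}

theorem exists_basis (U : Submodule ℂ (Matrix n n ℂ)) :
    ∃ (d : ℕ) (x : Fin d → Matrix n n ℂ), LinearIndependent ℂ x ∧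
      Submodule.span ℂ (Set.range x) = U := by
  let b := finBasis ℂ U
  refine ⟨finrank ℂ U, fun i => (b i : Matrix n n ℂ), ?_, ?_⟩
  · exact b.linearIndependent.map' U.subtype (Submodule.ker_subtype U)
  · have h1 : Set.range (fun i => (b i : Matrix n n ℂ)) = U.subtype '' Set.range b := by
      rw [← Set.range_comp]
      rfl
    rw [h1, Submodule.span_image, b.span_eq, Submodule.map_top, Submodule.range_subtype]

theorem t_ABS (hRED : S_RED) (hKILL : S_KILL) (hLIM : S_LIM) (hDIM : S_DIM) (hCONV : S_CONV)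
    (hSEMI : S_SEMI) (hCLO : S_CLO) (hCJ : S_CJ) : S_ABS := by
  intro n _ _ _ T p hT w hw L0 hL0 hL0A hdet M0 hM0 S hST
  obtain ⟨hss, hdec, hzs⟩ := hRED n T p hT
  have hM2 : 2 ≤ M0 := by
    rw [hM0]
    have h1 : 0 < (Fintype.card n).factorial * w ^ (Fintype.card n - 1) :=
      Nat.mul_pos (Nat.factorial_pos _) (pow_pos (by omega) _)
    omega
  have hkill := hKILL n T p hT hdec hzs w hw L0 hL0 hL0A hdet M0 hM0
  obtain ⟨d, x, hli, hX⟩ := exists_basis (brk (Ann T))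
  have hx : ∀ i, ∀ c ∈ CC T, x i * c = c * x i := fun i =>
    ann_comm (brk_le (hX ▸ Submodule.subset_span ⟨i, rfl⟩ : x i ∈ brk (Ann T)))
  obtain ⟨D⟩ := hLIM n (CC T) hT.star d x hx hli (hX ▸ hss)
  have hdim := dim_eq hDIM hT hdec hX hli hss D
  -- the conjugates
  have hgi : ∀ k, IsUnit (D.g k)⁻¹.det := fun k => by
    rw [Matrix.isUnit_nonsing_inv_det_iff]
    exact D.g_unit k
  have hconv : ∀ m, ∀ a ∈ TL' T p D.u m, ∃ A : ℕ → Op n m,
      (∀ k, A k ∈ (T m).map (cjm (D.g k)⁻¹ m)) ∧ Tendsto A atTop (𝓝 a) := by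
    intro m
    letI i1 : NormedAddCommGroup (Op n m) := Matrix.normedAddCommGroup
    letI i2 : NormedSpace ℂ (Op n m) := Matrix.normedSpace
    refine hCONV (Op n m) (fun k => (T m).map (cjm (D.g k)⁻¹ m)) (TL' T p D.u m) (fun k => ?_)
      (fun φ hφ A hA a ha => lim_mem hT hX D φ hφ A hA a ha)
    rw [finrank_map_cjm (hgi k), hdim]
  choose P hP using fun k => hCJ n S (D.g k)⁻¹ (hgi k)
  obtain ⟨P', hP'⟩ := sg_sys P
  have hsemi : ∀ m, finrank ℂ (P'.S m) ≤ finrank ℂ (S.S m) := by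
    intro m
    letI i1 : NormedAddCommGroup (Op n m) := Matrix.normedAddCommGroup
    letI i2 : NormedSpace ℂ (Op n m) := Matrix.normedSpace
    refine hSEMI (Op n m) (fun k => (P k).S m) _ (fun k => ?_) (P'.S m) (fun a ha => ?_)
    · rw [hP k m, finrank_map_cjm (hgi k)]
    · rw [hP' m] at ha
      exact ha
  -- the generated system
  obtain ⟨PT, hPT⟩ := hCLO n (ZZ T ∪ Set.range D.u) p hT.p_mul
  have hgen : ∀ m0, T m0 ≤ S.S m0 → ∃ G : TSys n, (∀ m, G.S m ≤ TL' T p D.u m) ∧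
      (∀ m, G.S m ≤ P'.S m) ∧ TL' T p D.u m0 ≤ G.S m0 := by
    intro m0 hm0
    obtain ⟨G, hG⟩ := gen_sys (V := TL' T p D.u m0) (TL'_star hT hzs D m0)
    refine ⟨G, fun m => ?_, fun m => ?_, ?_⟩
    · rw [hG m]
      refine (gen_le PT ?_ m).trans (hPT m).le
      rw [hPT m0]
      exact le_rfl
    · rw [hG m]
      refine gen_le P' ?_ m
      rw [hP' m0]
      intro a ha
      obtain ⟨A, hA, hAa⟩ := hconv m0 a ha
      refine ⟨A, fun k => ?_, hAa⟩
      rw [hP k m0]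
      exact Submodule.map_mono hm0 (hA k)
    · rw [hG m0]
      exact le_gen _
  have htens : ∀ (k j : ℕ) (A : Op n k), A ∈ TL' T p D.u k →
      tens A (1 : Op n j) ∈ TL' T p D.u (k + j) := fun k j A hA => CF_tens hA
  have hkS : ∀ G : TSys n, TL' T p D.u M0 ≤ G.S M0 → ∀ y : Matrix n n ℂ, yᴴ = -y →
      (∀ A ∈ G.S M0, A * dpow y M0 = dpow y M0 * A) → Kills (TL' T p D.u) y := by
    intro G hG y _ hy
    exact kill' hT hzs hX D (hdim 1) hM2 hkill y fun A hA => hy A (hG hA)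
  refine ⟨fun hTM m => ?_, fun m hm hTm k => ?_⟩
  · obtain ⟨G, hG1, hG2, hG3⟩ := hgen M0 hTM
    rw [hdim m]
    refine (uni3' M0 hM2 G (TL' T p D.u) (hkS G hG3) m).trans ?_
    exact Nat.mul_le_mul_left _ ((Submodule.finrank_mono (hG2 m)).trans (hsemi m))
  · obtain ⟨G, hG1, hG2, hG3⟩ := hgen m hTm
    have hMm : M0 ≤ m := le_bound Fintype.card_pos hM2 hm
    have hGM : TL' T p D.u M0 ≤ G.S M0 := down G (TL' T p D.u) htens hG3 hMm
    have h1 := uni3 M0 hM2 G (TL' T p D.u) hG1 (hkS G hGM)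
      (fun j A hA => dcomm hT hzs D G.S hG1 j A hA) m hm hG3 k
    refine (Submodule.eq_of_le_of_finrank_le (hST k) ?_).symm
    rw [hdim k, h1]
    exact (Submodule.finrank_mono (hG2 k)).trans (hsemi k)

end Pool.Agent.E8helper1.TW
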