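import Pool.Agent.E8helper1.TW.Stm2

/-!
# One power decides in every characteristic: statements with numerical equivalence
-/

set_option autoImplicit false

namespace Pool.Agent.E8helper1.TW

open Matrix Module
open Pool.Agent.E8helper1.TX Pool.Agent.E8helper56.TX Pool.Agent.E8helper56.TY

/-- The radical of the trace form on a space of matrices. -/
def rad {K : Type} [Field K] {N : Type} [Fintype N] (S : Submodule K (Matrix N N K)) :
    Submodule K (Matrix N N K) where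
  carrier := {A | A ∈ S ∧ ∀ B ∈ S, (A * B).trace = 0}
  zero_mem' := ⟨S.zero_mem, fun B _ => by rw [Matrix.zero_mul, Matrix.trace_zero]⟩
  add_mem' := fun {A A'} hA hA' => ⟨S.add_mem hA.1 hA'.1, fun B hB => by
    rw [Matrix.add_mul, Matrix.trace_add, hA.2 B hB, hA'.2 B hB, add_zero]⟩
  smul_mem' := fun c A hA => ⟨S.smul_mem c hA.1, fun B hB => by
    rw [Matrix.smul_mul, Matrix.trace_smul, hA.2 B hB, smul_zero]⟩

/-- **The abstract theorem**, with the radical of the trace form (compare `S_ABS`, `t_ABS`). -/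
def S_ABS2 : Prop := ∀ (n : Type) [Fintype n] [DecidableEq n] [Nonempty n]
  (T : ∀ m, Submodule ℂ (Op n m)) (p : Matrix n n ℂ), TD T p →
  ∀ (w : ℕ), 1 ≤ w → ∀ L0 : Set (Matrix n n ℂ), (∀ x ∈ L0, IsInt w x) → (∀ x ∈ L0, x ∈ Ann T) →
  (∀ (k : ℕ) (c : Matrix n n ℂ) (v u : (Fin k → n) → ℂ), o1 c ∈ T 1 → v ≠ 0 → u ≠ 0 →
    EigV c v → EigV cᵀ u →
    (∀ x ∈ L0, vecMulVec v u * dpow x k = dpow x k * vecMulVec v u) →
    tens (vecMulVec v u) (vecMulVec v u) ∈ T (k + k)) →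
  ∀ M0 : ℕ, M0 = 2 * ((Fintype.card n).factorial * w ^ (Fintype.card n - 1)) →
  ∀ S : PSys0 n, (∀ m, S.S m ≤ T m) →
  (∀ m, rad (T m) = ⊥) ∧
  (T M0 ≤ S.S M0 → ∀ m, Module.finrank ℂ (T m) +
      (2 * Fintype.card n * M0) ^ (2 * Fintype.card n ^ 2) * Module.finrank ℂ (rad (S.S m)) ≤
      (2 * Fintype.card n * M0) ^ (2 * Fintype.card n ^ 2) * Module.finrank ℂ (S.S m)) ∧
    ∀ m : ℕ, (Fintype.card n : ℝ) ^ 3 * (M0 : ℝ) ^ 2 * Real.log (2 * Fintype.card n * M0 + 1) ≤ m →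
      T m ≤ S.S m → ∀ k, T k = S.S k

/-- **The theorem on the level of matrices**, with the radical of the trace form (compare `S_ASMQ`,
`t_ASMQ`). -/
def S_ASMQ2 : Prop := ∀ (ℓ : ℕ) [Fact ℓ.Prime] [Algebra ℚ_[ℓ] ℂ] (n : Type) [Fintype n]
  [DecidableEq n] (Γ : Type) [Group Γ] (D : GalData ℓ n Γ) (d : ℕ) (_ : FrobQ D d)
  (S : ∀ m, Submodule ℚ_[ℓ] (Matrix (Fin m → n) (Fin m → n) ℚ_[ℓ])) (P0 : PSys0 n)
  (_ : ∀ m, P0.S m = bcM ℚ_[ℓ] (S m))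
  (_ : ∀ m, S m ≤ PotOp D.R D.p m) (_ : Nonempty n),
  (∀ m, rad (PotOp D.R D.p m) = ⊥) ∧
  (PotOp D.R D.p (M5 (Fintype.card n) d) ≤ S (M5 (Fintype.card n) d) →
    ∀ m, finrank ℚ_[ℓ] (PotOp D.R D.p m) +
      (2 * Fintype.card n * M5 (Fintype.card n) d) ^ (2 * Fintype.card n ^ 2) *
        finrank ℚ_[ℓ] (rad (S m)) ≤
      (2 * Fintype.card n * M5 (Fintype.card n) d) ^ (2 * Fintype.card n ^ 2) *
        finrank ℚ_[ℓ] (S m)) ∧
  ∀ m : ℕ, (Fintype.card n : ℝ) ^ 3 * (M5 (Fintype.card n) d : ℝ) ^ 2 *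
      Real.log (2 * Fintype.card n * M5 (Fintype.card n) d + 1) ≤ m → PotOp D.R D.p m ≤ S m →
    ∀ j, PotOp D.R D.p j = S j

/-- **Piece EMB**: the `ℓ`-adic numbers embed in the complex numbers. -/
def S_EMB : Prop := ∀ (ℓ : ℕ) [Fact ℓ.Prime], Nonempty (ℚ_[ℓ] →+* ℂ)

end Pool.Agent.E8helper1.TW
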