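import Pool.Agent.E8helper1.TX.Fin7
import Pool.Agent.E8helper1.TW.Stm3

/-!
# Numerical equivalence and the radical of the trace form
-/

open CategoryTheory AlgebraicGeometry Filter Topology

open scoped ENNReal

universe u v

namespace Pool.Agent.E8helper1.TW

open Module Matrix
open Pool.Agent.H914 Pool.Agent.H914.VarClass Pool.Agent.H914.VarClass.Obj
  Pool.Agent.H914.WeilCohomology Pool.Agent.H281R3.HT
open Pool.Agent.Y133.Half (Sys PH xp xp_def Ev Adj algSys corrL)
open Pool.Agent.Y133.Half.Sys (mem_Op)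
open Pool.Agent.Y129 (pw pj PowerAction TG tateClasses tateDim cycRank tate_index finrank_TG
  TG_eq_iff)
open Pool.Agent.TH125.Gal (IsGaloisAct Intertwines TateAct)
open Pool.Agent.E8helper1.TX

set_option linter.unusedSectionVars false

section rad

variable {K L : Type} [Field K] [Field L] (φ : K ≃+* L) {N : Type} [Fintype N] [DecidableEq N]

theorem mem_rad {S : Submodule K (Matrix N N K)} {A : Matrix N N K} :
    A ∈ rad S ↔ A ∈ S ∧ ∀ B ∈ S, (A * B).trace = 0 := Iff.rfl

theorem rad_le (S : Submodule K (Matrix N N K)) : rad S ≤ S := fun _ h => h.1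

theorem trace_mapφ (A : Matrix N N K) : (mapφ φ A).trace = φ A.trace := by
  rw [Matrix.trace, Matrix.trace, map_sum]
  rfl

theorem rad_trφ (S : Submodule K (Matrix N N K)) : rad (trφ φ S) = trφ φ (rad S) := by
  ext M
  obtain ⟨M', rfl⟩ : ∃ M', mapφ φ M' = M := ⟨M.map φ.symm, mapφ_symm φ M⟩
  rw [mapφ_mem, mem_rad, mem_rad, mapφ_mem]
  refine and_congr Iff.rfl ⟨fun h B hB => ?_, fun h B hB => ?_⟩
  · have h1 := h (mapφ φ B) ((mapφ_mem φ).2 hB)
    rw [← mapφ_mul, trace_mapφ] at h1
    exact (map_eq_zero_iff φ φ.injective).1 h1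
  · obtain ⟨B', rfl⟩ : ∃ B', mapφ φ B' = B := ⟨B.map φ.symm, mapφ_symm φ B⟩
    rw [← mapφ_mul, trace_mapφ, h B' ((mapφ_mem φ).1 hB), map_zero]

end rad

variable {k : Type u} [Field k] {𝒱 : VarClass k} {ops : CycleOps 𝒱}
  {W : WeilCohomology.{u, 0} ops} {X : 𝒱.Obj}
  {ι : Type} [Fintype ι] [DecidableEq ι] (v : Basis ι W.K (W.H X))

theorem mt_trace (n : ℕ) (a : Module.End W.K (W.H (pw X n))) :
    (mt v n a).trace = LinearMap.trace W.K _ a := by
  rw [LinearMap.trace_eq_matrix_trace W.K (wb v n), TX.mt]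

/-- The operators given by numerically trivial classes are orthogonal to all operators. -/
theorem trace_num (S : Sys W) (hp : H914.par (W.isInternal X) ∈ S.Op X X) (n : ℕ)
    {c : W.H ((pw X n).prod (pw X n))} (hc : c ∈ S.Num ((pw X n).prod (pw X n)))
    {b : Module.End W.K (W.H (pw X n))} (hb : b ∈ S.Op (pw X n) (pw X n)) :
    LinearMap.trace W.K (W.H (pw X n)) ((W.corr c : Module.End W.K (W.H (pw X n))) * b) = 0 := by
  have hpar : H914.par (W.isInternal (pw X n)) ∈ S.Op (pw X n) (pw X n) := by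
    have h1 := PN_mem S hp n
    rwa [← extP_par, extP_parN] at h1
  obtain ⟨d, hd, hd'⟩ := mem_Op.1 (Sys.Op.comp hb hpar)
  have h2 := Pool.Agent.Y133.Half.trace_corr_corr (W := W) (N := pw X n) (M := pw X n) c d
  rw [hc.2 _ (S.map _ hd)] at h2
  rw [hd'] at h2
  obtain ⟨a, ha⟩ : ∃ a : Module.End W.K (W.H (pw X n)), a = W.corr c := ⟨_, rfl⟩
  have h3 : LinearMap.trace W.K (W.H (pw X n)) (H914.par (W.isInternal (pw X n)) *
      ((a * b) * H914.par (W.isInternal (pw X n)))) = 0 := by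
    rw [ha]
    exact h2
  rw [LinearMap.trace_mul_comm, mul_assoc, par_mul_par, mul_one, ha] at h3
  exact h3

/-- The dimension of the space of numerically trivial classes. -/
theorem finrank_num_le (S : Sys W) (hp : H914.par (W.isInternal X) ∈ S.Op X X) (n : ℕ) :
    finrank W.K (S.Num ((pw X n).prod (pw X n))) ≤ finrank W.K (rad (SK v S (n + 1))) := by
  let f : W.H ((pw X n).prod (pw X n)) →ₗ[W.K] Matrix (Fin (n + 1) → ι) (Fin (n + 1) → ι) W.K :=
    (LinearMap.toMatrix (wb v n) (wb v n)).toLinearMap ∘ₗ corrL W (pw X n) (pw X n)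
  have hf : Function.Injective f := by
    rw [← LinearMap.ker_eq_bot, LinearMap.ker_eq_bot']
    intro c h
    have h1 : corrL W (pw X n) (pw X n) c = 0 :=
      (LinearMap.toMatrix (wb v n) (wb v n)).map_eq_zero_iff.1 h
    exact corr_inj h1
  have hle : (S.Num ((pw X n).prod (pw X n))).map f ≤ rad (SK v S (n + 1)) := by
    rintro _ ⟨c, hc, rfl⟩
    have h1 : f c = mt v n (W.corr c) := rfl
    rw [h1]
    refine ⟨(mem_SK_succ v S n _).2 ⟨_, Sys.Op.corr hc.1, rfl⟩, fun B hB => ?_⟩
    obtain ⟨b, hb, rfl⟩ := (mem_SK_succ v S n _).1 hB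
    rw [← mt_mul, mt_trace]
    exact trace_num S hp n hc hb
  rw [(Submodule.equivMapOfInjective f hf _).finrank_eq]
  exact Submodule.finrank_mono hle

/-- The rank of the cycles modulo numerical equivalence. -/
theorem cycRank_add (n : ℕ) (hp : H914.par (W.isInternal X) ∈ (algSys W).Op X X) :
    finrank W.K (algSpan W (pw X (n + n + 1))) ≤
      cycRank ops (pw X (n + n + 1)) + finrank W.K (rad (SK v (algSys W) (n + 1))) := by
  obtain ⟨i⟩ := Pool.Agent.Y129.pw_iso X n n (n + n + 1) rfl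
  have h1 := finrank_num_le v (algSys W) hp n
  have h2 := (algSys W).a_add_num ((pw X n).prod (pw X n))
  have h3 := (algSys W).a_iso i
  have h4 := (algSys W).finrank_C_iso i
  rw [Pool.Agent.Y133.Half.numDim_eq_cycRank] at h2 h3
  rw [Pool.Agent.Y133.Half.numDim_eq_cycRank] at h3
  have h5 : (algSys W).C (pw X (n + n + 1)) = algSpan W (pw X (n + n + 1)) := rfl
  rw [h5] at h4
  have h6 : Pool.Agent.Y133.Half.cycRank ops (pw X (n + n + 1)) =
    cycRank ops (pw X (n + n + 1)) := rfl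
  rw [h6] at h3
  rw [← h4]
  omega

end Pool.Agent.E8helper1.TW
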